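import Mathlib

/-!
# The finite check behind the window inequalities (MP_183c3b_co)

A pattern of a `3 × 4` window is a number below `4096` (bit `4 r + c` for row `r`, column `c`, a
bit `1` is a blue cell), a pattern of a `4 × 4` window is given by its rows `r₀, r₁, r₂, r₃ < 16`.
-/

set_option autoImplicit false

namespace Pool.Agent.H43.TC

/-- field `u` of width `w` of the table `tab` -/
def get (w tab u : ℕ) : ℕ := (tab >>> (w * u)) % 2 ^ w

/-- spreading four bits to the positions `0, 4, 8, 12` -/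
def sp (r : ℕ) : ℕ :=
  r % 2 + 16 * (r / 2 % 2) + 256 * (r / 4 % 2) + 4096 * (r / 8 % 2)

/-- number of ones of a four bit number -/
def pc (r : ℕ) : ℕ := r % 2 + r / 2 % 2 + r / 4 % 2 + r / 8 % 2

/-- the inequality at the pattern with rows `r₀, r₁, r₂, r₃`; the two tables belong to the upper
and the lower three rows, and to the left and the right three columns; in the rows `0` and `3`
only the blue cells in the columns of the mask `a` are counted -/
def chk (w t₁ t₂ κ o a r₀ r₁ r₂ r₃ : ℕ) : Bool :=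
  Nat.ble (κ * (pc (r₀ &&& a) + pc r₁ + pc r₂ + pc (r₃ &&& a)) + 4 * o)
    (get w t₁ (r₀ + 16 * r₁ + 256 * r₂) + get w t₂ (r₁ + 16 * r₂ + 256 * r₃) +
      get w t₁ ((sp r₀ + 2 * sp r₁ + 4 * sp r₂ + 8 * sp r₃) % 4096) +
      get w t₂ ((sp r₀ + 2 * sp r₁ + 4 * sp r₂ + 8 * sp r₃) / 16))

/-- all sixteen rows -/
def all (f : ℕ → Bool) : Bool :=
  f 0 && f 1 && f 2 && f 3 && f 4 && f 5 && f 6 && f 7 && f 8 && f 9 && f 10 && f 11 && f 12 &&
    f 13 && f 14 && f 15

theorem all_spec (f : ℕ → Bool) (h : all f = true) (r : ℕ) (hr : r < 16) : f r = true := by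
  unfold all at h
  simp only [Bool.and_eq_true] at h
  obtain ⟨⟨⟨⟨⟨⟨⟨⟨⟨⟨⟨⟨⟨⟨⟨h0, h1⟩, h2⟩, h3⟩, h4⟩, h5⟩, h6⟩, h7⟩, h8⟩, h9⟩, h10⟩, h11⟩, h12⟩, h13⟩,
    h14⟩, h15⟩ := h
  interval_cases r <;> assumption

end Pool.Agent.H43.TC
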