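import Pool.Agent.H43.TC.Defs
import Pool.Agent.H43.TC.Chk

/-!
# Targets of the board tc_modules (MP_183c3b_co)
-/

set_option autoImplicit false

namespace Pool.Agent.H43.TC

open Filter Topology

/-! ### walks -/

/-- walks and homomorphisms -/
def T_HOM : Prop := ∀ (G H : Type) [AddCommGroup G] [AddCommGroup H] (k : ℕ) (s : Fin k → G)
  (π : G →+ H) (c : H → Bool) (b : Bool) (t : ℕ) (x : G),
    walks s (fun y => c (π y)) b t x = walks (fun i => π (s i)) c b t (π x)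

/-- averages over a group and a quotient -/
def T_AVG : Prop := ∀ (G H : Type) [AddCommGroup G] [AddCommGroup H] [Fintype G] [Fintype H]
  (π : G →+ H), Function.Surjective π → ∀ f : H → ℕ,
    Fintype.card H * ∑ x, f (π x) = Fintype.card G * ∑ y, f y

/-- a periodic extension has the same densities -/
def T_PUL : Prop := ∀ (k n M : ℕ) [NeZero n] [NeZero M] (c : Tor k n → Bool) (b : Bool) (t : ℕ),
  dens (fun x => c (red n M x)) b = dens c b ∧ mono (fun x => c (red n M x)) b t = mono c b t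

/-- sums over a slab -/
def T_ZON : Prop := ∀ (k n M l : ℕ) [NeZero n] [NeZero M] (i₀ : Fin k), l ≤ M →
  ∀ g : Tor k n → ℕ,
    ∑ x : Tor k (n * M), (if (x i₀).val < n * l then g (red n M x) else 0) =
      l * M ^ (k - 1) * ∑ y, g y

/-- the layers near the boundary of the slab are few -/
def T_BAD : Prop := ∀ (k N L t : ℕ) [NeZero N] (i₀ : Fin k), L ≤ N →
  Set.ncard {x : Tor k N | ∃ j : ℤ, |j| ≤ t ∧
    ¬ ((x i₀ + (j : ZMod N)).val < L ↔ (x i₀).val < L)} ≤ (4 * t + 2) * N ^ (k - 1)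

/-- the number of monochromatic walks depends only on the colours of the near layers -/
def T_LOC : Prop := ∀ (k N : ℕ) (H : Type) [AddCommGroup H] (π : Tor k N →+ H) (i₀ : Fin k)
  (c : Tor k N → Bool) (c' : H → Bool) (b : Bool) (t : ℕ) (x : Tor k N),
    (∀ y : Tor k N, (∃ j : ℤ, |j| ≤ t ∧ y i₀ = x i₀ + (j : ZMod N)) → c y = c' (π y)) →
      walks e c b t x = walks (fun i => π (e i)) c' b t (π x)

/-- mixing two periodic colourings in slabs -/
def T_MIX : Prop := ∀ (k n M l t : ℕ) [NeZero n] [NeZero M] (_ : Fin k), l ≤ M →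
  ∀ c₁ c₂ : Tor k n → Bool, ∃ c : Tor k (n * M) → Bool,
    (∀ b, dens c b = (l / M : ℝ) * dens c₁ b + (1 - l / M : ℝ) * dens c₂ b) ∧
    ∀ b, |mono c b t - ((l / M : ℝ) * mono c₁ b t + (1 - l / M : ℝ) * mono c₂ b t)| ≤
      (4 * t + 2 : ℝ) / (n * M : ℝ)

/-! ### profiles and the region -/

/-- profiles of periodic colourings -/
def T_PAT : Prop := ∀ (k n t : ℕ) [NeZero n] (_ : Fin k) (c : Tor k n → Bool),
  Near k t (dens c true) (mono c true t) (mono c false t)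

/-- profiles can be mixed with rational weights -/
def T_NER : Prop := ∀ (k t : ℕ) (_ : Fin k) (ρ₁ R₁ B₁ ρ₂ R₂ B₂ : ℝ), Near k t ρ₁ R₁ B₁ →
  Near k t ρ₂ R₂ B₂ → ∀ l M : ℕ, 0 < M → l ≤ M →
    Near k t ((l / M : ℝ) * ρ₁ + (1 - l / M : ℝ) * ρ₂) ((l / M : ℝ) * R₁ + (1 - l / M : ℝ) * R₂)
      ((l / M : ℝ) * B₁ + (1 - l / M : ℝ) * B₂)

/-- the region in terms of profiles -/
def T_REG : Prop := ∀ (k t : ℕ) (x y : ℝ), 0 < k →
  ((x, y) ∈ region k t ↔ Near k t (1 / 2) (x / 2) (y / 2))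

/-- the region is symmetric -/
def T_SYM : Prop := ∀ (k t : ℕ) (x y : ℝ), (x, y) ∈ region k t → (y, x) ∈ region k t

/-- the region is closed -/
def T_CLS : Prop := ∀ k t : ℕ, 0 < k → IsClosed (region k t)

/-- the region is convex -/
def T_CVX : Prop := ∀ k t : ℕ, 0 < k → Convex ℝ (region k t)

/-- a balanced colouring satisfies a linear inequality valid for all colourings -/
def T_INQ : Prop := ∀ (k t : ℕ) (q p μ : ℝ), 0 < k → 0 ≤ q → 0 ≤ p →
  (∀ (n : ℕ) (c : Tor k (n + 3) → Bool),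
    μ * dens c false ≤ q * mono c false t + p * (1 - mono c true t)) →
  ∀ x y : ℝ, (x, y) ∈ region k t → μ ≤ q * y + p * (2 - x)

/-- linear patterns modulo `m`, mixed with red slabs -/
def T_LIN : Prop := ∀ (k m t : ℕ) [NeZero m] (_ : Fin k) (a : Fin k → ZMod m),
  Function.Surjective (lin a) → ∀ (f : ZMod m → Bool) (r WR WB : ℕ),
    (Finset.univ.filter (fun u => f u = true)).card = r → 2 * r ≤ m → 0 < m - r →
    ∑ u, walks a f true t u = WR → ∑ u, walks a f false t u = WB →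
      (((WR : ℝ) / (2 * k : ℝ) ^ t + m - 2 * r) / (m - r),
        ((WB : ℝ) / (2 * k : ℝ) ^ t) / (m - r)) ∈ region k t

/-! ### the plane, three steps -/

section

variable {n : ℕ}

/-- number of neighbours of colour `b` -/
def dg (c : Tor 2 n → Bool) (b : Bool) (x : Tor 2 n) : ℕ :=
  ∑ i : Fin 2, ((if c (x + e i) = b then 1 else 0) + (if c (x - e i) = b then 1 else 0))

/-- the contribution of the edge from `x` to `x + e i` -/
def ed (c : Tor 2 n → Bool) (b : Bool) (i : Fin 2) (x : Tor 2 n) : ℕ :=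
  if c x = b ∧ c (x + e i) = b then dg c b x * dg c b (x + e i) else 0

end

/-- three step walks by their middle edge -/
def T_SUM : Prop := ∀ (n : ℕ) [NeZero n] (c : Tor 2 n → Bool) (b : Bool),
  total c b 3 = 2 * ∑ x, (ed c b 0 x + ed c b 1 x)

/-- blue product of the middle edge of a `3 × 4` pattern -/
def eB (r₀ r₁ r₂ : ℕ) : ℕ :=
  (r₁ / 2 % 2) * (r₁ / 4 % 2) *
    ((r₁ % 2 + r₀ / 2 % 2 + r₂ / 2 % 2 + 1) * (r₁ / 8 % 2 + r₀ / 4 % 2 + r₂ / 4 % 2 + 1))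

/-- red product of the middle edge of a `3 × 4` pattern -/
def eR (r₀ r₁ r₂ : ℕ) : ℕ :=
  (1 - r₁ / 2 % 2) * (1 - r₁ / 4 % 2) *
    ((4 - (r₁ % 2 + r₀ / 2 % 2 + r₂ / 2 % 2)) * (4 - (r₁ / 8 % 2 + r₀ / 4 % 2 + r₂ / 4 % 2)))

/-- the two tables are complementary -/
def cmpl (w t₁ t₂ o D p q r₀ r₁ r₂ : ℕ) : Bool :=
  Nat.beq (get w t₁ (r₀ + 16 * r₁ + 256 * r₂) + get w t₂ (r₀ + 16 * r₁ + 256 * r₂))
    (2 * D * (q * eB r₀ r₁ r₂ + p * (16 - eR r₀ r₁ r₂)) + 2 * o)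

/-- the finite checks of a certificate; `a` is the mask of the outer rows -/
def Cert (w t₁ t₂ κ o D p q a : ℕ) : Prop :=
  all (fun r₀ => all (fun r₁ => all (fun r₂ => cmpl w t₁ t₂ o D p q r₀ r₁ r₂))) = true ∧
  all (fun r₀ => all (fun r₁ => all (fun r₂ => all (fun r₃ =>
    chk w t₁ t₂ κ o a r₀ r₁ r₂ r₃)))) = true

/-- from a certificate to the inequality for all colourings; `a = 6` (outer rows: columns 1, 2
only, 12 cells) and `a = 15` (16 cells) -/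
def T_WIN : Prop := ∀ (w t₁ t₂ κ o D p q a s : ℕ), (a = 6 ∧ s = 12) ∨ (a = 15 ∧ s = 16) →
  Cert w t₁ t₂ κ o D p q a → ∀ (n : ℕ) [NeZero n] (c : Tor 2 n → Bool),
    s * κ * size c false + D * p * total c true 3 ≤
      D * (q * total c false 3 + 64 * p * n ^ 2)

/-- the inequality of slope `p / q` -/
def Ineq (p q N : ℕ) : Prop := ∀ (n : ℕ) [NeZero n] (c : Tor 2 n → Bool),
  N * size c false + p * total c true 3 ≤ q * total c false 3 + 64 * p * n ^ 2

def T_CER : Prop := Ineq 4 17 512 ∧ Ineq 40 157 5088 ∧ Ineq 8 31 1016 ∧ Ineq 17 16 1760 ∧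
  Ineq 39 32 3968 ∧ Ineq 21 16 2112 ∧ Ineq 33 16 3072 ∧ Ineq 5 2 448

/-- the eight inequalities for the lower boundary -/
def Low (x y : ℝ) : Prop :=
  4 * x ≤ 17 * y ∧ 40 * x - 1 / 2 ≤ 157 * y ∧ 8 * x - 1 / 8 ≤ 31 * y ∧
  17 * x - 13 / 2 ≤ 16 * y ∧ 39 * x - 16 ≤ 32 * y ∧ 21 * x - 9 ≤ 16 * y ∧
  33 * x - 18 ≤ 16 * y ∧ 5 * x - 3 ≤ 2 * y

def T_OUT : Prop := ∀ x y : ℝ, (x, y) ∈ region 2 3 → 0 ≤ x ∧ x ≤ 1 ∧ Low x y

/-- the vertices of the lower boundary -/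
def verts : Set (ℝ × ℝ) :=
  {(0, 0), (17 / 104, 1 / 26), (33 / 128, 1 / 16), (1 / 2, 1 / 8), (3 / 5, 37 / 160),
    (2 / 3, 5 / 16), (3 / 4, 27 / 64), (6 / 7, 9 / 14), (1, 1)}

def T_VTX : Prop := verts ⊆ region 2 3

def T_POL : Prop := ∀ x y : ℝ, 0 ≤ x → x ≤ 1 → 0 ≤ y → y ≤ 1 → Low x y → Low y x →
  (x, y) ∈ convexHull ℝ (verts ∪ Prod.swap '' verts)

/-- the main theorem -/
def T_MAIN : Prop := region 2 3 = convexHull ℝ (verts ∪ Prod.swap '' verts)

end Pool.Agent.H43.TC
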