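import Pool.Agent.H20.TC.AVG
import Pool.Agent.H20.TC.BAD
import Pool.Agent.H20.TC.HOM
import Pool.Agent.H74.TC.CLS
import Pool.Agent.H33.TC.CVX
import Pool.Agent.H60.TC.INQ
import Pool.Agent.H74.TC.LIN
import Pool.Agent.H51.TC.LOC
import Pool.Agent.H33.TC.MIX
import Pool.Agent.H31.TC.NER
import Pool.Agent.H65.TC.PAT
import Pool.Agent.H33.TC.PUL
import Pool.Agent.H31.TC.REG
import Pool.Agent.H71.TC.SYM
import Pool.Agent.H65.TC.ZON

/-! The general facts about the region, all hypotheses discharged (MP_183c3b_co). -/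

set_option autoImplicit false

namespace Pool.Agent.H43.TC

theorem pul' : T_PUL := Pool.Agent.H33.TC.pul Pool.Agent.H20.TC.hom Pool.Agent.H20.TC.avg

theorem mix' : T_MIX := Pool.Agent.H33.TC.mix Pool.Agent.H65.TC.zon Pool.Agent.H20.TC.bad loc

theorem pat' : T_PAT := Pool.Agent.H65.TC.pat mix'

theorem ner' : T_NER := Pool.Agent.H31.TC.ner pul' mix'

theorem cls' : T_CLS := cls Pool.Agent.H31.TC.reg

theorem cvx' : T_CVX := Pool.Agent.H33.TC.cvx Pool.Agent.H31.TC.reg cls' ner'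

theorem inq' : T_INQ := Pool.Agent.H60.TC.inq Pool.Agent.H31.TC.reg

theorem lin' : T_LIN :=
  lin_mem Pool.Agent.H20.TC.hom Pool.Agent.H20.TC.avg Pool.Agent.H31.TC.reg pat' ner'

theorem sym' : T_SYM := Pool.Agent.H71.TC.sym

end Pool.Agent.H43.TC
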