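import Pool.Agent.H43.TC.FIN
import Pool.Agent.H42.TE.IN2
import Pool.Agent.H42.TE.BOX
import Pool.Agent.H71.TE.ONE
import Pool.Agent.H90.TE.DNS
import Pool.Agent.H45.TE.IDN
import Pool.Agent.H45.TE.SYA
import Pool.Agent.H90.TE.MNW
import Pool.Agent.H90.TE.NXB
import Pool.Agent.H90.TE.HBD
import Pool.Agent.H59.TE.DFN
import Pool.Agent.H90.TE.DFS
import Pool.Agent.H67.TC.CR1
import Pool.Agent.H32.TE.DEF
import Pool.Agent.H49.TE.PCK
import Pool.Agent.H32.TE.CR2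
import Pool.Agent.H91.TE.ATT

/-! The facts about the corner, all hypotheses discharged (MP_183c3b_co). -/

set_option autoImplicit false

namespace Pool.Agent.H43.TC

theorem nxb' : T_NXB := Pool.Agent.H90.TE.nxb Pool.Agent.H45.TE.sya Pool.Agent.H90.TE.mnw

theorem dfs' : T_DFS := Pool.Agent.H90.TE.dfs Pool.Agent.H45.TE.idn

theorem dfn' : T_DFN := Pool.Agent.H59.TE.dfn nxb' Pool.Agent.H90.TE.hbd

theorem cr1' : T_CR1 := Pool.Agent.H67.TC.cr1 dfn' dfs' Pool.Agent.H90.TE.dns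

theorem def2' : T_DEF :=
  Pool.Agent.H32.TE.def2 Pool.Agent.H45.TE.sya Pool.Agent.H90.TE.mnw Pool.Agent.H90.TE.hbd nxb'

theorem cr2' : T_CR2 :=
  Pool.Agent.H32.TE.cr2 dfn' dfs' def2' Pool.Agent.H49.TE.pck Pool.Agent.H42.TE.in2
    Pool.Agent.H90.TE.dns

theorem att' : T_ATT := Pool.Agent.H91.TE.att Pool.Agent.H45.TE.idn

end Pool.Agent.H43.TC
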