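import Pool.Agent.H43.TC.Defs2
import Pool.Agent.H43.TC.Targets

/-!
# Targets of the board te_modules (MP_183c3b_co)
-/

set_option autoImplicit false

namespace Pool.Agent.H43.TC

open Filter Topology

/-! ### a version of `T_INQ` for large tori -/

/-- a balanced colouring satisfies a linear inequality valid for all colourings of large tori -/
def T_IN2 : Prop := ∀ (k t n₀ : ℕ) (q p μ : ℝ), 0 < k → 0 ≤ q → 0 ≤ p →
  (∀ (n : ℕ) (c : Tor k (n + 3) → Bool), n₀ ≤ n →
    μ * dens c false ≤ q * mono c false t + p * (1 - mono c true t)) →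
  ∀ x y : ℝ, (x, y) ∈ region k t → μ ≤ q * y + p * (2 - x)

/-- the region lies in the unit square -/
def T_BOX : Prop := ∀ (k t : ℕ) (x y : ℝ), 0 < k → (x, y) ∈ region k t →
  0 ≤ x ∧ x ≤ 1 ∧ 0 ≤ y ∧ y ≤ 1

/-- the point `(1, 1)` -/
def T_ONE : Prop := ∀ k t : ℕ, 0 < k → ((1 : ℝ), (1 : ℝ)) ∈ region k t

/-- densities -/
def T_DNS : Prop := ∀ (k n t : ℕ) [NeZero n] (c : Tor k n → Bool), 0 < k →
  dens c true + dens c false = 1 ∧ (∀ b, size c b = dens c b * (n : ℝ) ^ k) ∧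
  (∀ b, total c b t = mono c b t * ((n : ℝ) ^ k * (2 * k : ℝ) ^ t)) ∧
  size c true + size c false = n ^ k

/-! ### the cycle -/

/-- the extents to the left and to the right of the `2 ^ t` walks with steps `± 1` -/
def ex : ℕ → List (ℕ × ℕ)
  | 0 => [(0, 0)]
  | t + 1 => (ex t).map (fun p => (p.1 - 1, p.2 + 1)) ++ (ex t).map (fun p => (p.1 + 1, p.2 - 1))

/-- elementary properties of the extents -/
def T_EXB : Prop := ∀ t : ℕ, (ex t).length = 2 ^ t ∧
  ∀ p ∈ ex t, p.1 + p.2 ≤ t ∧ (1 ≤ t → 1 ≤ p.1 + p.2)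

/-- walks with one generator in terms of extents -/
def T_WEX : Prop := ∀ (G : Type) [AddCommGroup G] (g : G) (c : G → Bool) (b : Bool) (t : ℕ) (x : G),
  walks (fun _ : Fin 1 => g) c b t x = ((ex t).map (fun p : ℕ × ℕ =>
    if ∀ j, j < p.1 + p.2 + 1 → c (x - p.1 • g + j • g) = b then 1 else 0)).sum

/-- the number of windows `x, x + g, …, x + D g` of colour `b` -/
def wd {G : Type} [AddCommGroup G] [Fintype G] (g : G) (c : G → Bool) (b : Bool) (D : ℕ) : ℕ :=
  (Finset.univ.filter (fun x => ∀ j, j < D + 1 → c (x + j • g) = b)).card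

/-- the number of boundaries `x` of colour `b`, `x + g` not of colour `b` -/
def jp {G : Type} [AddCommGroup G] [Fintype G] (g : G) (c : G → Bool) (b : Bool) : ℕ :=
  (Finset.univ.filter (fun x => c x = b ∧ c (x + g) ≠ b)).card

/-- total number of walks by windows -/
def T_WDT : Prop := ∀ (G : Type) [AddCommGroup G] [Fintype G] (g : G) (c : G → Bool) (b : Bool)
  (t : ℕ), ∑ x, walks (fun _ : Fin 1 => g) c b t x =
    ((ex t).map (fun p => wd g c b (p.1 + p.2))).sum

/-- windows and boundaries -/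
def T_RUN : Prop := ∀ (G : Type) [AddCommGroup G] [Fintype G] (g : G) (c : G → Bool),
  jp g c true = jp g c false ∧ ∀ b, wd g c b 0 = (Finset.univ.filter (fun x => c x = b)).card ∧
    ∀ D, wd g c b 0 ≤ wd g c b D + D * jp g c b ∧
      (1 ≤ D → wd g c b D + jp g c b ≤ wd g c b 0)

/-- walks in a path by extents -/
def T_PWX : Prop := ∀ m t : ℕ, pathWalks m t = ((ex t).map (fun p => m - (p.1 + p.2))).sum

/-- the inequalities for the cycle -/
def T_CIN : Prop := ∀ (t m : ℕ) (x y : ℝ), 1 ≤ t → (x, y) ∈ region 1 t →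
  ((pathWalks (m + 1) t : ℝ) - pathWalks m t) -
    ((m : ℝ) * pathWalks (m + 1) t - (m + 1 : ℝ) * pathWalks m t) * (1 - x) ≤ 2 ^ t * y

/-- the vertices for the cycle -/
def T_CPT : Prop := ∀ t m : ℕ, 1 ≤ t → 1 ≤ m →
  ((1 - 1 / m : ℝ), (pathWalks m t / (m * 2 ^ t) : ℝ)) ∈ region 1 t

/-- the vertices of the lower boundary for the cycle -/
def cyv (t : ℕ) : Set (ℝ × ℝ) :=
  {p | p = (1, 1) ∨ ∃ m : ℕ, 1 ≤ m ∧ m ≤ t ∧
    p = ((1 - 1 / m : ℝ), (pathWalks m t / (m * 2 ^ t) : ℝ))}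

/-- the convex hull is cut out by the inequalities -/
def T_HUL : Prop := ∀ (t : ℕ) (x y : ℝ), 1 ≤ t → 0 ≤ x → x ≤ 1 → 0 ≤ y → y ≤ 1 →
  (∀ m : ℕ, ((pathWalks (m + 1) t : ℝ) - pathWalks m t) -
    ((m : ℝ) * pathWalks (m + 1) t - (m + 1 : ℝ) * pathWalks m t) * (1 - x) ≤ 2 ^ t * y) →
  (∀ m : ℕ, ((pathWalks (m + 1) t : ℝ) - pathWalks m t) -
    ((m : ℝ) * pathWalks (m + 1) t - (m + 1 : ℝ) * pathWalks m t) * (1 - y) ≤ 2 ^ t * x) →
  (x, y) ∈ convexHull ℝ (cyv t ∪ Prod.swap '' cyv t)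

/-- the region for the cycle -/
def T_CYC : Prop := ∀ t : ℕ, 1 ≤ t → region 1 t = convexHull ℝ (cyv t ∪ Prod.swap '' cyv t)

/-- walks in the path and powers of the adjacency matrix -/
def T_ADJ : Prop := ∀ m t : ℕ, pathWalks m t = ∑ i : Fin m, ∑ j : Fin m,
  ((Matrix.of fun a b : Fin m => if (a : ℕ) + 1 = b ∨ (b : ℕ) + 1 = a then 1 else 0) ^ t :
    Matrix (Fin m) (Fin m) ℕ) i j

/-! ### the power law -/

/-- Blakley and Roy for monochromatic walks -/
def T_BRG : Prop := ∀ (G : Type) [AddCommGroup G] [Fintype G] (k : ℕ) (s : Fin k → G)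
  (c : G → Bool) (b : Bool) (t : ℕ), 1 ≤ t →
    (∑ x, walks s c b 1 x) ^ t ≤
      (∑ x, walks s c b t x) * (Finset.univ.filter (fun x => c x = b)).card ^ (t - 1)

/-- balanced colourings have the same number of red and blue edges, and a bound by edges -/
def T_EDG : Prop := ∀ (G : Type) [AddCommGroup G] [Fintype G] (k : ℕ) (s : Fin k → G)
  (c : G → Bool) (t : ℕ),
    2 * k * (Finset.univ.filter (fun x => c x = true)).card + ∑ x, walks s c false 1 x =
      2 * k * (Finset.univ.filter (fun x => c x = false)).card + ∑ x, walks s c true 1 x ∧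
    ∀ b, ∑ x, walks s c b (t + 1) x ≤ (2 * k) ^ t * ∑ x, walks s c b 1 x

/-- the power law -/
def T_PLW : Prop := ∀ (k t : ℕ) (x y : ℝ), 0 < k → 1 ≤ t → (x, y) ∈ region k t → x ^ t ≤ y

/-- it is attained at the divisors of `2k` -/
def T_DIV : Prop := ∀ k t m : ℕ, 0 < k → 1 ≤ t → m ∣ 2 * k →
  ((1 - 1 / m : ℝ), ((1 - 1 / m) ^ t : ℝ)) ∈ region k t

/-! ### the corner -/

/-- the number of walks that enter blue and stay there -/
def nxt {G : Type} [AddCommGroup G] {k : ℕ} (s : Fin k → G) (c : G → Bool) (j : ℕ) (x : G) : ℕ :=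
  ∑ i, (walks s c false j (x + s i) + walks s c false j (x - s i))

/-- the number of blue neighbours -/
def blu {G : Type} [AddCommGroup G] {k : ℕ} (s : Fin k → G) (c : G → Bool) (x : G) : ℕ :=
  ∑ i, ((if c (x + s i) = false then 1 else 0) + (if c (x - s i) = false then 1 else 0))

/-- decomposition by the exit time -/
def T_IDN : Prop := ∀ (G : Type) [AddCommGroup G] [Fintype G] (k : ℕ) (s : Fin k → G)
  (c : G → Bool) (t : ℕ),
    (∑ x, walks s c false t x) + ∑ j ∈ Finset.range t, (2 * k) ^ (t - 1 - j) *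
      ∑ x, (if c x = true then nxt s c j x else 0) =
      (2 * k) ^ t * (Finset.univ.filter (fun x => c x = false)).card

/-- the directions are equivalent -/
def T_SYA : Prop := ∀ (k j : ℕ) (i : Fin k),
  2 * k * walks un (off k) true j (un i) = avoid k (j + 1) ∧
  2 * k * walks un (off k) true j (-un i) = avoid k (j + 1)

/-- monotonicity of walks, and propagation of equality -/
def T_MNW : Prop := ∀ (k : ℕ) (c : (Fin k → ℤ) → Bool), 0 < k → c 0 = true →
  (∀ j v, walks un c false j v ≤ walks un (off k) true j v) ∧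
  (∀ j v, v ≠ 0 → walks un c false j v = walks un (off k) true j v → c v = false) ∧
  (∀ j v, v ≠ 0 → walks un c false (j + 1) v = walks un (off k) true (j + 1) v →
    ∀ i, walks un c false j (v + un i) = walks un (off k) true j (v + un i) ∧
      walks un c false j (v - un i) = walks un (off k) true j (v - un i))

/-- walks that enter blue from a red vertex -/
def T_NXB : Prop := ∀ (k n : ℕ) (c : Tor k n → Bool) (x : Tor k n), 0 < k → c x = true →
  ∀ j, 2 * k * nxt e c j x ≤ blu e c x * avoid k (j + 1)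

/-- red walks and the number of blue neighbours -/
def T_HBD : Prop := ∀ (G : Type) [AddCommGroup G] (k : ℕ) (s : Fin k → G) (c : G → Bool) (t : ℕ)
  (x : G), walks s c true (t + 1) x + (2 * k) ^ t * blu s c x ≤ (2 * k) ^ (t + 1)

/-- the defect of a vertex -/
noncomputable def df {k n : ℕ} (c : Tor k n → Bool) (t : ℕ) (x : Tor k n) : ℝ :=
  (rng k t - 1) * ((2 * k : ℝ) ^ t - walks e c true t x) -
    ∑ j ∈ Finset.range t, (2 * k : ℝ) ^ (t - 1 - j) * nxt e c j x

/-- the defect of a red vertex is nonnegative -/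
def T_DFN : Prop := ∀ (k n t : ℕ) (c : Tor k n → Bool) (x : Tor k n), 0 < k → 1 ≤ t →
  c x = true → 0 ≤ df c t x

/-- the sum of the defects -/
def T_DFS : Prop := ∀ (k n t : ℕ) [NeZero n] (c : Tor k n → Bool), 0 < k → 1 ≤ t →
  ∑ x, (if c x = true then df c t x else 0) =
    (rng k t - 1) * ((2 * k : ℝ) ^ t * size c true - total c true t) -
      ((2 * k : ℝ) ^ t * size c false - total c false t)

/-- first inequality at the corner -/
def T_CR1 : Prop := ∀ (k t : ℕ) (x y : ℝ), 0 < k → 1 ≤ t → (x, y) ∈ region k t →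
  1 - y ≤ (rng k t - 1) * (1 - x)

/-- `x` is red and the other vertices at distance at most `t` are blue -/
def Good {k n : ℕ} (c : Tor k n → Bool) (t : ℕ) (x : Tor k n) : Prop :=
  c x = true ∧ ∀ z : Fin k → ℤ, z ≠ 0 → nrm z ≤ t → c (x + pr z) = false

/-- a red vertex that is not good and can reach blue has defect at least one -/
def T_DEF : Prop := ∀ (k n t : ℕ) (c : Tor k n → Bool) (x : Tor k n), 2 ≤ k → 2 ≤ t → t < n →
  c x = true → walks e c true t x < (2 * k) ^ t → ¬ Good c t x → 1 ≤ df c t x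

/-- packing -/
def T_PCK : Prop := ∀ (k n t : ℕ) [NeZero n] (c : Tor k n → Bool) (A : Finset (Fin k → ℤ)),
  t < n → (0 : Fin k → ℤ) ∈ A → (∀ a ∈ A, ∀ b ∈ A, nrm (a - b) ≤ t) →
    (A.card - 1) * Set.ncard {x | Good c t x} ≤ size c false

/-- second inequality at the corner -/
def T_CR2 : Prop := ∀ (k t : ℕ) (A : Finset (Fin k → ℤ)) (x y : ℝ), 2 ≤ k → 2 ≤ t →
  (0 : Fin k → ℤ) ∈ A → (∀ a ∈ A, ∀ b ∈ A, nrm (a - b) ≤ t) → (x, y) ∈ region k t →
    ((A.card : ℝ) - 1) * ((1 - x) - (2 * k : ℝ) ^ t * ((rng k t - 1) * (1 - x) - (1 - y))) ≤ 1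

/-- attained points -/
def T_ATT : Prop := ∀ (k t N : ℕ) [NeZero N] (a : Fin k → ZMod N), 0 < k → 1 ≤ t → 2 ≤ N →
  Function.Surjective (lin a) →
  (∀ z : Fin k → ℤ, z ≠ 0 → nrm z ≤ t → ∑ i, a i * (z i : ZMod N) ≠ 0) →
    ((1 - 1 / (N - 1) : ℝ), ((N - rng k t) / (N - 1) : ℝ)) ∈ region k t

/-- diameter perfect codes: a lattice of index `N` with minimal norm above `t` and a set of `N`
points of diameter at most `t` -/
def Perf (k t N : ℕ) : Prop :=
  (∃ a : Fin k → ZMod N, Function.Surjective (lin a) ∧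
    ∀ z : Fin k → ℤ, z ≠ 0 → nrm z ≤ t → ∑ i, a i * (z i : ZMod N) ≠ 0) ∧
  ∃ A : Finset (Fin k → ℤ), (0 : Fin k → ℤ) ∈ A ∧ (∀ a ∈ A, ∀ b ∈ A, nrm (a - b) ≤ t) ∧
    A.card = N

/-- the plane -/
def T_PF2 : Prop := ∀ t : ℕ, Perf 2 t (((t + 1) ^ 2 + 1) / 2)

/-- two steps -/
def T_PFK : Prop := ∀ k : ℕ, 0 < k → Perf k 2 (2 * k + 1)

/-- three steps -/
def T_PF3 : Prop := ∀ k : ℕ, 0 < k → Perf k 3 (4 * k)

/-- the edge at the corner, whenever there is a diameter perfect code -/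
def T_EDGE : Prop := ∀ k t N : ℕ, 2 ≤ k → 2 ≤ t → 3 ≤ N → Perf k t N →
  (∀ p ∈ region k t, 1 - p.2 ≤ (rng k t - 1) * (1 - p.1)) ∧
  {p | p ∈ region k t ∧ 1 - p.2 = (rng k t - 1) * (1 - p.1)} =
    segment ℝ ((1 - 1 / (N - 1) : ℝ), ((N - rng k t) / (N - 1) : ℝ)) (1, 1)

end Pool.Agent.H43.TC
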