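import Pool.Agent.H43.TC.Targets4
import Pool.Agent.H43.TC.Q1
import Pool.Agent.H43.TC.Q2
import Pool.Agent.H43.TC.Q3
import Pool.Agent.H43.TC.Q4
import Pool.Agent.H43.TC.Q5
import Pool.Agent.H43.TC.Q6
import Pool.Agent.H43.TC.Q7
import Pool.Agent.H43.TC.Q8
import Pool.Agent.H43.TC.Q9
import Pool.Agent.H43.TC.Q10
import Pool.Agent.H43.TC.Q11

/-! The eleven inequalities for four steps (MP_183c3b_co). -/

set_option autoImplicit false

namespace Pool.Agent.H43.TC

theorem ineq5_of (hWN4 : T_WN4) {w g₁ g₂ v m₁ m₂ κ oG oM o D p q N : ℕ}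
    (hC : Cert4 w g₁ g₂ v m₁ m₂ κ oG oM o D p q) (hD : 0 < D) (hN : κ = D * N) :
    Ineq4 p q N := by
  intro n _ c
  have h := hWN4 w g₁ g₂ v m₁ m₂ κ oG oM o D p q hC n c
  rw [hN] at h
  refine Nat.le_of_mul_le_mul_left ?_ hD
  calc D * (N * size c false + p * total c true 4)
      = D * N * size c false + D * p * total c true 4 := by ring
    _ ≤ _ := h

theorem ce5 (hWN4 : T_WN4) : T_CE4 :=
  ⟨ineq5_of hWN4 cert5_1 (by norm_num) (by norm_num),
    ineq5_of hWN4 cert5_2 (by norm_num) (by norm_num),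
    ineq5_of hWN4 cert5_3 (by norm_num) (by norm_num),
    ineq5_of hWN4 cert5_4 (by norm_num) (by norm_num),
    ineq5_of hWN4 cert5_5 (by norm_num) (by norm_num),
    ineq5_of hWN4 cert5_6 (by norm_num) (by norm_num),
    ineq5_of hWN4 cert5_7 (by norm_num) (by norm_num),
    ineq5_of hWN4 cert5_8 (by norm_num) (by norm_num),
    ineq5_of hWN4 cert5_9 (by norm_num) (by norm_num),
    ineq5_of hWN4 cert5_10 (by norm_num) (by norm_num),
    ineq5_of hWN4 cert5_11 (by norm_num) (by norm_num)⟩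

end Pool.Agent.H43.TC
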