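import Pool.Agent.H43.TC.C1
import Pool.Agent.H43.TC.C2
import Pool.Agent.H43.TC.C3
import Pool.Agent.H43.TC.C4
import Pool.Agent.H43.TC.C5
import Pool.Agent.H43.TC.C6
import Pool.Agent.H43.TC.C7
import Pool.Agent.H43.TC.C8

/-! The eight inequalities (MP_183c3b_co). -/

set_option autoImplicit false

namespace Pool.Agent.H43.TC

theorem ineq_of (hWIN : T_WIN) {w t₁ t₂ κ o D p q a s N : ℕ}
    (ha : (a = 6 ∧ s = 12) ∨ (a = 15 ∧ s = 16)) (hC : Cert w t₁ t₂ κ o D p q a) (hD : 0 < D)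
    (hN : s * κ = D * N) : Ineq p q N := by
  intro n _ c
  have h := hWIN w t₁ t₂ κ o D p q a s ha hC n c
  rw [hN] at h
  refine Nat.le_of_mul_le_mul_left ?_ hD
  calc D * (N * size c false + p * total c true 3)
      = D * N * size c false + D * p * total c true 3 := by ring
    _ ≤ _ := h

theorem cer (hWIN : T_WIN) : T_CER := by
  refine ⟨ineq_of hWIN (Or.inl ⟨rfl, rfl⟩) cert1 (by norm_num) (by norm_num),
    ineq_of hWIN (Or.inl ⟨rfl, rfl⟩) cert2 (by norm_num) (by norm_num),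
    ineq_of hWIN (Or.inl ⟨rfl, rfl⟩) cert3 (by norm_num) (by norm_num),
    ineq_of hWIN (Or.inr ⟨rfl, rfl⟩) cert4 (by norm_num) (by norm_num),
    ineq_of hWIN (Or.inr ⟨rfl, rfl⟩) cert5 (by norm_num) (by norm_num),
    ineq_of hWIN (Or.inl ⟨rfl, rfl⟩) cert6 (by norm_num) (by norm_num),
    ineq_of hWIN (Or.inl ⟨rfl, rfl⟩) cert7 (by norm_num) (by norm_num),
    ineq_of hWIN (Or.inl ⟨rfl, rfl⟩) cert8 (by norm_num) (by norm_num)⟩

end Pool.Agent.H43.TC
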