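import Pool.Agent.H43.TC.LGN

/-! The edge of the region at the corner `(1, 1)` (MP_183c3b_co). -/

set_option autoImplicit false

namespace Pool.Agent.H43.TC

open Filter Topology

/-- the exact length of the edge if there is a diameter perfect code -/
theorem edge_len (hCR2 : T_CR2) (hATT : T_ATT) {k t N : ℕ} (hk : 2 ≤ k) (ht : 2 ≤ t)
    (hN : 3 ≤ N) (hP : Perf k t N) {u : ℝ}
    (hu : ((1 - u : ℝ), (1 - (rng k t - 1) * u : ℝ)) ∈ region k t)
    (hmax : ∀ v : ℝ, ((1 - v : ℝ), (1 - (rng k t - 1) * v : ℝ)) ∈ region k t → v ≤ u) :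
    u = 1 / ((N : ℝ) - 1) := by
  have hN1 : (0 : ℝ) < (N : ℝ) - 1 := by
    have : (3 : ℝ) ≤ N := by exact_mod_cast hN
    linarith
  obtain ⟨⟨a, ha, ha'⟩, A, h0, hA, hcard⟩ := hP
  apply le_antisymm
  · have h := hCR2 k t A _ _ hk ht h0 hA hu
    rw [hcard] at h
    have h2 : ((N : ℝ) - 1) * u ≤ 1 := by
      have e1 : (rng k t - 1) * (1 - (1 - u)) - (1 - (1 - (rng k t - 1) * u)) = 0 := by ring
      rw [e1] at h
      linarith
    rw [le_div_iff₀ hN1]
    linarith
  · haveI : NeZero N := ⟨by omega⟩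
    have h := hATT k t N a (by omega) (by omega) (by omega) ha ha'
    refine hmax _ ?_
    have e1 : (1 - (rng k t - 1) * (1 / ((N : ℝ) - 1)) : ℝ) = (N - rng k t) / (N - 1) := by
      field_simp
      ring
    rw [e1]
    exact h

/-- the edge at the corner -/
theorem cor (hCR1 : T_CR1) (hCR2 : T_CR2) (hATT : T_ATT) (hONE : T_ONE) (hBOX : T_BOX)
    (hCLS : T_CLS) (hCVX : T_CVX) (hPF2 : T_PF2) (hPFK : T_PFK) (hPF3 : T_PF3) (k t : ℕ)
    (hk : 2 ≤ k) (ht : 2 ≤ t) :
    (∀ p ∈ region k t, 1 - p.2 ≤ (rng k t - 1) * (1 - p.1)) ∧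
    ∃ u : ℝ, 1 / ((t + 1 : ℝ) ^ k - 1) ≤ u ∧
      (k = 2 → u = 1 / ((t * (t + 2) / 2 : ℕ) : ℝ)) ∧
      (t = 2 → u = 1 / (2 * k : ℝ)) ∧
      (t = 3 → u = 1 / (4 * k - 1 : ℝ)) ∧
      {p | p ∈ region k t ∧ 1 - p.2 = (rng k t - 1) * (1 - p.1)} =
        segment ℝ ((1 - u : ℝ), (1 - (rng k t - 1) * u : ℝ)) (1, 1) := by
  have hk0 : 0 < k := by omega
  set E : ℝ := rng k t - 1 with hE
  set U : Set ℝ := {u | ((1 - u : ℝ), (1 - E * u : ℝ)) ∈ region k t} with hU
  have hUc : IsClosed U :=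
    (hCLS k t hk0).preimage (by fun_prop : Continuous fun u : ℝ => ((1 - u : ℝ), (1 - E * u : ℝ)))
  have hUb : ∀ u ∈ U, 0 ≤ u ∧ u ≤ 1 := by
    intro u hu
    have := hBOX k t _ _ hk0 hu
    constructor <;> linarith [this.1, this.2.1]
  have h0U : (0 : ℝ) ∈ U := by
    have := hONE k t hk0
    simpa [hU] using this
  have hcomp : IsCompact U :=
    (isCompact_Icc (a := (0 : ℝ)) (b := 1)).of_isClosed_subset hUc fun u hu => hUb u hu
  obtain ⟨u, huU, humax⟩ := hcomp.exists_isMaxOn ⟨0, h0U⟩ continuous_id.continuousOn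
  have humax' : ∀ v : ℝ, ((1 - v : ℝ), (1 - E * v : ℝ)) ∈ region k t → v ≤ u := fun v hv =>
    humax (show v ∈ U from hv)
  refine ⟨fun p hp => hCR1 k t p.1 p.2 hk0 (by omega) hp, u, ?_, ?_, ?_, ?_, ?_⟩
  · -- the general lattice
    obtain ⟨a, ha, ha'⟩ := lgn k t hk0
    haveI : NeZero ((t + 1) ^ k) := ⟨by positivity⟩
    have h2 : 2 ≤ (t + 1) ^ k := by
      calc 2 ≤ t + 1 := by omega
        _ = (t + 1) ^ 1 := (pow_one _).symm
        _ ≤ (t + 1) ^ k := Nat.pow_le_pow_right (by omega) hk0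
    have h := hATT k t ((t + 1) ^ k) a hk0 (by omega) h2 ha ha'
    have hN1 : (0 : ℝ) < (t + 1 : ℝ) ^ k - 1 := by
      have : (2 : ℝ) ≤ ((t + 1) ^ k : ℕ) := by exact_mod_cast h2
      push_cast at this
      linarith
    refine humax' _ ?_
    push_cast at h
    have e1 : (1 - E * (1 / ((t + 1 : ℝ) ^ k - 1)) : ℝ) =
        ((t + 1 : ℝ) ^ k - rng k t) / ((t + 1 : ℝ) ^ k - 1) := by
      rw [hE]
      field_simp
      ring
    rw [e1]
    exact h
  · rintro rfl
    have hN : ((t + 1) ^ 2 + 1) / 2 = t * (t + 2) / 2 + 1 := by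
      have : (t + 1) ^ 2 + 1 = t * (t + 2) + 2 := by ring
      rw [this]
      omega
    have h8 : 8 ≤ t * (t + 2) := by nlinarith
    have h := edge_len hCR2 hATT (le_refl 2) ht (by rw [hN]; omega) (hPF2 t) huU humax'
    rw [h, hN]
    push_cast
    congr 1
    ring
  · rintro rfl
    have h := edge_len hCR2 hATT hk (le_refl 2) (by omega) (hPFK k hk0) huU humax'
    rw [h]
    push_cast
    congr 1
    ring
  · rintro rfl
    have h := edge_len hCR2 hATT hk (by norm_num) (by omega) (hPF3 k hk0) huU humax'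
    rw [h]
    push_cast
    rfl
  · apply Set.Subset.antisymm
    · rintro ⟨x, y⟩ ⟨hp, hl⟩
      simp only at hl
      have hxu : ((1 - (1 - x) : ℝ), (1 - E * (1 - x) : ℝ)) = (x, y) := by
        rw [← hl]
        ext <;> simp
      have hv : (1 - x) ≤ u := humax' (1 - x) (by rw [hxu]; exact hp)
      have hx0 := (hBOX k t x y hk0 hp).2.1
      rcases eq_or_lt_of_le (hUb u huU).1 with h0 | h0
      · have hx1 : x = 1 := by linarith
        have hy1 : y = 1 := by rw [hx1] at hl; linarith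
        rw [hx1, hy1]
        exact right_mem_segment ℝ _ _
      · refine ⟨(1 - x) / u, 1 - (1 - x) / u, by positivity, ?_, by ring, ?_⟩
        · rw [sub_nonneg, div_le_one h0]
          exact hv
        · ext
          · simp only [Prod.fst_add, Prod.smul_fst, smul_eq_mul, mul_one]
            field_simp
            ring
          · simp only [Prod.snd_add, Prod.smul_snd, smul_eq_mul, mul_one]
            have : y = 1 - E * (1 - x) := by linarith
            rw [this]
            field_simp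
            ring
    · rintro p hp
      refine ⟨(hCVX k t hk0).segment_subset huU (hONE k t hk0) hp, ?_⟩
      obtain ⟨a, b, ha, hb, hab, rfl⟩ := hp
      simp only [Prod.fst_add, Prod.smul_fst, smul_eq_mul, mul_one, Prod.snd_add, Prod.smul_snd]
      have : b = 1 - a := by linarith
      rw [this]
      ring

end Pool.Agent.H43.TC
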