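import Pool.Agent.H43.TC.Chk

/-!
# The finite check behind the window inequalities for four steps (MP_183c3b_co)

A pattern on the union of the diamonds of radius two at `(0, 0)` and `(0, 1)` (first coordinate =
row) is given by its rows: `a < 4` (row `-2`, columns `0, 1`), `b < 16` (row `-1`, columns
`-1, …, 2`), `c < 64` (row `0`, columns `-2, …, 3`), `d < 16` (row `1`, columns `-1, …, 2`),
`e < 4` (row `2`, columns `0, 1`); bit `1` is a blue cell, the lowest bit is the leftmost cell.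

The left diamond has the index `a % 2 + 2 (b % 8) + 16 (c % 32) + 512 (d % 8) + 4096 (e % 2)`,
the right diamond `a / 2 + 2 (b / 2) + 16 (c / 2) + 512 (d / 2) + 4096 (e / 2)`.  The octagon of
the rows `-1, …, 2` has the index `b / 2 % 4 + 4 (c / 2 % 16) + 64 d + 1024 e` and the octagon of
the rows `-2, …, 1` the index `a + 4 b + 64 (c / 2 % 16) + 1024 (d / 2 % 4)`.
-/

set_option autoImplicit false

namespace Pool.Agent.H43.TC

/-- index of the left diamond -/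
def li (a b c d e : ℕ) : ℕ := a % 2 + 2 * (b % 8) + 16 * (c % 32) + 512 * (d % 8) + 4096 * (e % 2)

/-- index of the right diamond -/
def ri (a b c d e : ℕ) : ℕ := a / 2 + 2 * (b / 2) + 16 * (c / 2) + 512 * (d / 2) + 4096 * (e / 2)

/-- index of the upper octagon -/
def ui (b c d e : ℕ) : ℕ := b / 2 % 4 + 4 * (c / 2 % 16) + 64 * d + 1024 * e

/-- index of the lower octagon -/
def vi (a b c d : ℕ) : ℕ := a + 4 * b + 64 * (c / 2 % 16) + 1024 * (d / 2 % 4)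

/-- four values -/
def all4 (f : ℕ → Bool) : Bool := f 0 && f 1 && f 2 && f 3

theorem all4_spec (f : ℕ → Bool) (h : all4 f = true) (r : ℕ) (hr : r < 4) : f r = true := by
  unfold all4 at h
  simp only [Bool.and_eq_true] at h
  obtain ⟨⟨⟨h0, h1⟩, h2⟩, h3⟩ := h
  interval_cases r <;> assumption

/-- innermost level: `L, R` have sixteen fields of width `w`, `U` has four and `V` has sixty four
fields of width `v` -/
def lvB (w v o L R U V : ℕ) : Bool :=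
  all (fun b => all4 (fun a => Nat.ble o (get w L (a % 2 + 2 * (b % 8)) +
    get w R (a / 2 + 2 * (b / 2)) + get v U (b / 2 % 4) + get v V (a + 4 * b))))

/-- second level -/
def lvC (w v o L R U V : ℕ) : Bool :=
  all4 (fun c₁ => all (fun c₀ => lvB w v o (get (16 * w) L ((16 * c₁ + c₀) % 32))
    (get (16 * w) R ((16 * c₁ + c₀) / 2)) (get (4 * v) U ((16 * c₁ + c₀) / 2 % 16))
    (get (64 * v) V ((16 * c₁ + c₀) / 2 % 16))))

/-- the checks of one slab, the row `e` being fixed -/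
def slab (w g₁ g₂ v m₁ m₂ o e : ℕ) : Bool :=
  all (fun d => lvC w v o (get (512 * w) g₁ (d % 8 + 8 * (e % 2)))
    (get (512 * w) g₂ (d / 2 + 8 * (e / 2))) (get (64 * v) m₁ (d + 16 * e))
    (get (1024 * v) m₂ (d / 2 % 4)))

theorem get_get (w m t i j : ℕ) (h : i < m) : get w (get (m * w) t j) i = get w t (i + m * j) := by
  unfold get
  simp only [Nat.shiftRight_eq_div_pow]
  have e1 : 2 ^ (m * w) = 2 ^ (w * i) * 2 ^ (w * (m - i)) := by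
    rw [← pow_add, ← Nat.mul_add, Nat.add_sub_cancel' h.le, Nat.mul_comm]
  have e2 : 2 ^ w ∣ 2 ^ (w * (m - i)) :=
    pow_dvd_pow _ (Nat.le_mul_of_pos_right _ (Nat.sub_pos_of_lt h))
  rw [e1, Nat.mod_mul_right_div_self, Nat.mod_mod_of_dvd _ e2, Nat.div_div_eq_div_mul,
    ← pow_add]
  congr 3
  ring

theorem slab_spec {w g₁ g₂ v m₁ m₂ o e : ℕ} (h : slab w g₁ g₂ v m₁ m₂ o e = true)
    {a b c d : ℕ} (ha : a < 4) (hb : b < 16) (hc : c < 64) (hd : d < 16) :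
    o ≤ get w g₁ (li a b c d e) + get w g₂ (ri a b c d e) + get v m₁ (ui b c d e) +
      get v m₂ (vi a b c d) := by
  have h1 := all_spec _ h d hd
  have h2 := all4_spec _ h1 (c / 16) (by omega)
  have h3 := all_spec _ h2 (c % 16) (Nat.mod_lt _ (by norm_num))
  have h4 := all_spec _ h3 b hb
  have h5 := all4_spec _ h4 a ha
  have h6 := Nat.le_of_ble_eq_true h5
  have e16 : 16 * (c / 16) + c % 16 = c := by omega
  rw [e16, get_get w 16 _ _ _ (by omega), get_get w 16 _ _ _ (by omega),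
    get_get v 4 _ _ _ (by omega), get_get v 64 _ _ _ (by omega),
    get_get w 512 _ _ _ (by omega), get_get w 512 _ _ _ (by omega),
    get_get v 64 _ _ _ (by omega), get_get v 1024 _ _ _ (by omega)] at h6
  have i1 : a % 2 + 2 * (b % 8) + 16 * (c % 32) + 512 * (d % 8 + 8 * (e % 2)) =
      li a b c d e := by unfold li; ring
  have i2 : a / 2 + 2 * (b / 2) + 16 * (c / 2) + 512 * (d / 2 + 8 * (e / 2)) =
      ri a b c d e := by unfold ri; ring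
  have i3 : b / 2 % 4 + 4 * (c / 2 % 16) + 64 * (d + 16 * e) = ui b c d e := by unfold ui; ring
  have i4 : a + 4 * b + 64 * (c / 2 % 16) + 1024 * (d / 2 % 4) = vi a b c d := by unfold vi; ring
  rw [i1, i2, i3, i4] at h6
  exact h6

/-! ### the tables are complementary -/

/-- two values -/
def all2 (f : ℕ → Bool) : Bool := f 0 && f 1

theorem all2_spec (f : ℕ → Bool) (h : all2 f = true) (r : ℕ) (hr : r < 2) : f r = true := by
  unfold all2 at h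
  simp only [Bool.and_eq_true] at h
  obtain ⟨h0, h1⟩ := h
  interval_cases r <;> assumption

/-- index of a diamond given by its thirteen cells -/
def dx (b0 b1 b2 b3 b4 b5 b6 b7 b8 b9 b10 b11 b12 : ℕ) : ℕ :=
  b0 + 2 * (b1 + 2 * b2 + 4 * b3) + 16 * (b4 + 2 * b5 + 4 * b6 + 8 * b7 + 16 * b8) +
    512 * (b9 + 2 * b10 + 4 * b11) + 4096 * b12

/-- number of two step walks from the centre -/
def nb (b0 b1 b2 b3 b4 b5 b6 b7 b8 b9 b10 b11 b12 : ℕ) : ℕ :=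
  b6 * (b2 * (b0 + b1 + b3 + b6) + b5 * (b1 + b9 + b4 + b6) + b7 * (b3 + b11 + b8 + b6) +
    b10 * (b9 + b11 + b12 + b6))

/-- blue square -/
def eB4 (b0 b1 b2 b3 b4 b5 b6 b7 b8 b9 b10 b11 b12 : ℕ) : ℕ :=
  nb b0 b1 b2 b3 b4 b5 b6 b7 b8 b9 b10 b11 b12 ^ 2

/-- red square -/
def eR4 (b0 b1 b2 b3 b4 b5 b6 b7 b8 b9 b10 b11 b12 : ℕ) : ℕ :=
  nb (1 - b0) (1 - b1) (1 - b2) (1 - b3) (1 - b4) (1 - b5) (1 - b6) (1 - b7) (1 - b8) (1 - b9)
    (1 - b10) (1 - b11) (1 - b12) ^ 2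

/-- the identity for a diamond and its transpose -/
def cmd1 (w g₁ g₂ κ o D p q b0 b1 b2 b3 b4 b5 b6 b7 b8 b9 b10 b11 b12 : ℕ) : Bool :=
  Nat.beq (get w g₁ (dx b0 b1 b2 b3 b4 b5 b6 b7 b8 b9 b10 b11 b12) +
      get w g₂ (dx b0 b1 b2 b3 b4 b5 b6 b7 b8 b9 b10 b11 b12) +
      get w g₁ (dx b4 b1 b5 b9 b0 b2 b6 b10 b12 b3 b7 b11 b8) +
      get w g₂ (dx b4 b1 b5 b9 b0 b2 b6 b10 b12 b3 b7 b11 b8) + κ * b6)
    (4 * o + D * (q * eB4 b0 b1 b2 b3 b4 b5 b6 b7 b8 b9 b10 b11 b12 +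
      p * (256 - eR4 b0 b1 b2 b3 b4 b5 b6 b7 b8 b9 b10 b11 b12)))

/-- all diamonds -/
def cmD (w g₁ g₂ κ o D p q : ℕ) : Bool :=
  all2 (fun b0 => all2 (fun b1 => all2 (fun b2 => all2 (fun b3 => all2 (fun b4 =>
  all2 (fun b5 => all2 (fun b6 => all2 (fun b7 => all2 (fun b8 => all2 (fun b9 =>
  all2 (fun b10 => all2 (fun b11 => all2 (fun b12 =>
    cmd1 w g₁ g₂ κ o D p q b0 b1 b2 b3 b4 b5 b6 b7 b8 b9 b10 b11 b12)))))))))))))

theorem cmD_spec {w g₁ g₂ κ o D p q : ℕ} (h : cmD w g₁ g₂ κ o D p q = true)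
    {b0 b1 b2 b3 b4 b5 b6 b7 b8 b9 b10 b11 b12 : ℕ} (h0 : b0 < 2) (h1 : b1 < 2) (h2 : b2 < 2)
    (h3 : b3 < 2) (h4 : b4 < 2) (h5 : b5 < 2) (h6 : b6 < 2) (h7 : b7 < 2) (h8 : b8 < 2)
    (h9 : b9 < 2) (h10 : b10 < 2) (h11 : b11 < 2) (h12 : b12 < 2) :
    get w g₁ (dx b0 b1 b2 b3 b4 b5 b6 b7 b8 b9 b10 b11 b12) +
      get w g₂ (dx b0 b1 b2 b3 b4 b5 b6 b7 b8 b9 b10 b11 b12) +
      get w g₁ (dx b4 b1 b5 b9 b0 b2 b6 b10 b12 b3 b7 b11 b8) +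
      get w g₂ (dx b4 b1 b5 b9 b0 b2 b6 b10 b12 b3 b7 b11 b8) + κ * b6 =
    4 * o + D * (q * eB4 b0 b1 b2 b3 b4 b5 b6 b7 b8 b9 b10 b11 b12 +
      p * (256 - eR4 b0 b1 b2 b3 b4 b5 b6 b7 b8 b9 b10 b11 b12)) :=
  Nat.eq_of_beq_eq_true (all2_spec _ (all2_spec _ (all2_spec _ (all2_spec _ (all2_spec _
    (all2_spec _ (all2_spec _ (all2_spec _ (all2_spec _ (all2_spec _ (all2_spec _ (all2_spec _
      (all2_spec _ h b0 h0) b1 h1) b2 h2) b3 h3) b4 h4) b5 h5) b6 h6) b7 h7) b8 h8) b9 h9)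
        b10 h10) b11 h11) b12 h12)

/-- index of an octagon given by its twelve cells -/
def ox (b0 b1 b2 b3 b4 b5 b6 b7 b8 b9 b10 b11 : ℕ) : ℕ :=
  b0 + 2 * b1 + 4 * (b2 + 2 * b3 + 4 * b4 + 8 * b5) + 64 * (b6 + 2 * b7 + 4 * b8 + 8 * b9) +
    1024 * (b10 + 2 * b11)

/-- the identity for an octagon and its transpose -/
def cmo1 (v m₁ m₂ o b0 b1 b2 b3 b4 b5 b6 b7 b8 b9 b10 b11 : ℕ) : Bool :=
  Nat.beq (get v m₁ (ox b0 b1 b2 b3 b4 b5 b6 b7 b8 b9 b10 b11) +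
      get v m₂ (ox b0 b1 b2 b3 b4 b5 b6 b7 b8 b9 b10 b11) +
      get v m₁ (ox b2 b6 b0 b3 b7 b10 b1 b4 b8 b11 b5 b9) +
      get v m₂ (ox b2 b6 b0 b3 b7 b10 b1 b4 b8 b11 b5 b9)) (4 * o)

/-- all octagons -/
def cmO (v m₁ m₂ o : ℕ) : Bool :=
  all2 (fun b0 => all2 (fun b1 => all2 (fun b2 => all2 (fun b3 => all2 (fun b4 =>
  all2 (fun b5 => all2 (fun b6 => all2 (fun b7 => all2 (fun b8 => all2 (fun b9 =>
  all2 (fun b10 => all2 (fun b11 =>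
    cmo1 v m₁ m₂ o b0 b1 b2 b3 b4 b5 b6 b7 b8 b9 b10 b11))))))))))))

theorem cmO_spec {v m₁ m₂ o : ℕ} (h : cmO v m₁ m₂ o = true)
    {b0 b1 b2 b3 b4 b5 b6 b7 b8 b9 b10 b11 : ℕ} (h0 : b0 < 2) (h1 : b1 < 2) (h2 : b2 < 2)
    (h3 : b3 < 2) (h4 : b4 < 2) (h5 : b5 < 2) (h6 : b6 < 2) (h7 : b7 < 2) (h8 : b8 < 2)
    (h9 : b9 < 2) (h10 : b10 < 2) (h11 : b11 < 2) :
    get v m₁ (ox b0 b1 b2 b3 b4 b5 b6 b7 b8 b9 b10 b11) +
      get v m₂ (ox b0 b1 b2 b3 b4 b5 b6 b7 b8 b9 b10 b11) +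
      get v m₁ (ox b2 b6 b0 b3 b7 b10 b1 b4 b8 b11 b5 b9) +
      get v m₂ (ox b2 b6 b0 b3 b7 b10 b1 b4 b8 b11 b5 b9) = 4 * o :=
  Nat.eq_of_beq_eq_true (all2_spec _ (all2_spec _ (all2_spec _ (all2_spec _ (all2_spec _
    (all2_spec _ (all2_spec _ (all2_spec _ (all2_spec _ (all2_spec _ (all2_spec _
      (all2_spec _ h b0 h0) b1 h1) b2 h2) b3 h3) b4 h4) b5 h5) b6 h6) b7 h7) b8 h8) b9 h9)
        b10 h10) b11 h11)

/-- the finite checks of a certificate -/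
def Cert4 (w g₁ g₂ v m₁ m₂ κ oG oM o D p q : ℕ) : Prop :=
  cmD w g₁ g₂ κ oG D p q = true ∧ cmO v m₁ m₂ oM = true ∧ o = 2 * oG + 2 * oM ∧
  slab w g₁ g₂ v m₁ m₂ o 0 = true ∧ slab w g₁ g₂ v m₁ m₂ o 1 = true ∧
  slab w g₁ g₂ v m₁ m₂ o 2 = true ∧ slab w g₁ g₂ v m₁ m₂ o 3 = true

end Pool.Agent.H43.TC
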