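import Pool.Agent.H43.TC.Chk4

/-!
# Packed certificates for four steps (MP_183c3b_co)

The tables have fields of width `22`; `256` consecutive fields form a row.  The position inside a
row is given by the eight cells common to the two diamonds and the two octagons of a window, the
number of the row by the remaining cells, so that the inequality of a window becomes an inequality
between sums of rows, which is checked with one addition of long numbers.
-/

set_option autoImplicit false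

namespace Pool.Agent.H43.TC

/-- conjunction -/
def an (x y : Bool) : Bool := @Bool.rec (fun _ => Bool) false y x

/-- two values -/
def al2 (f : ℕ → Bool) : Bool := an (f (nat_lit 0)) (f (nat_lit 1))

/-- a row -/
def rw5 (G r : ℕ) : ℕ := Nat.mod (Nat.shiftRight G (Nat.mul (nat_lit 5632) r))
  (Nat.pow (nat_lit 2) (nat_lit 5632))

/-- the field which starts at bit `p` -/
def fd5 (G p : ℕ) : ℕ := Nat.mod (Nat.shiftRight G p) (nat_lit 4194304)

/-- `n` fields with the value one -/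
def on5 (n : ℕ) : ℕ := Nat.div (Nat.sub (Nat.pow (nat_lit 2) (Nat.mul (nat_lit 22) n)) (nat_lit 1))
  (nat_lit 4194303)

/-- all fields are below `2 ^ 19` -/
def bd5 (G n : ℕ) : Bool :=
  Nat.beq (Nat.land (Nat.shiftRight G (nat_lit 19)) (Nat.mul (nat_lit 7) (on5 n))) (nat_lit 0)

/-- comparison of packed rows -/
def lf5 (X Y Z T K H : ℕ) : Bool :=
  Nat.beq (Nat.land (Nat.add (Nat.add (Nat.add X Y) (Nat.add Z T)) K) H) H

/-- the window inequalities -/
def ws5 (G₁ G₂ M₁ M₂ o : ℕ) : Bool :=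
  al2 fun e0 => al2 fun e1 => al2 fun d0 => al2 fun d3 => al2 fun a0 => al2 fun b0 =>
  al2 fun a1 => al2 fun b3 => al2 fun c0 => al2 fun c5 =>
    lf5
      (rw5 G₁ (Nat.add (Nat.add (Nat.add a0 (Nat.mul (nat_lit 2) b0))
        (Nat.add (Nat.mul (nat_lit 8) d0) (Nat.mul (nat_lit 16) e0))) (Nat.mul (nat_lit 4) c0)))
      (rw5 G₂ (Nat.add (Nat.add (Nat.add a1 (Nat.mul (nat_lit 2) b3))
        (Nat.add (Nat.mul (nat_lit 8) d3) (Nat.mul (nat_lit 16) e1))) (Nat.mul (nat_lit 4) c5)))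
      (rw5 M₁ (Nat.add (Nat.add d0 (Nat.mul (nat_lit 2) d3))
        (Nat.add (Nat.mul (nat_lit 4) e0) (Nat.mul (nat_lit 8) e1))))
      (rw5 M₂ (Nat.add (Nat.add a0 (Nat.mul (nat_lit 2) a1))
        (Nat.add (Nat.mul (nat_lit 4) b0) (Nat.mul (nat_lit 8) b3))))
      (Nat.mul (Nat.sub (nat_lit 2097152) o) (on5 (nat_lit 256)))
      (Nat.mul (nat_lit 2097152) (on5 (nat_lit 256)))

/-- branching with three accumulators -/
def br5 (f : ℕ → ℕ → ℕ → Bool) (wp wt s p t n : ℕ) : Bool :=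
  an (f p t n) (f (Nat.add p wp) (Nat.add t wt) (Nat.add n s))

/-- branching with three accumulators, the last one reversed -/
def bs5 (f : ℕ → ℕ → ℕ → Bool) (wp wt s p t n : ℕ) : Bool :=
  an (f p t (Nat.add n s)) (f (Nat.add p wp) (Nat.add t wt) n)

/-- sum of the four fields of a diamond and its transpose -/
def sm5 (A B C E p t : ℕ) : ℕ :=
  Nat.add (Nat.add (fd5 A p) (fd5 B (Nat.mul (nat_lit 2) p)))
    (Nat.add (fd5 C t) (fd5 E (Nat.mul (nat_lit 2) t)))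

/-- blue centre -/
def lb5 (A B C E κ c₁ c₂ p t n : ℕ) : Bool :=
  Nat.beq (Nat.add (sm5 A B C E p t) κ) (Nat.add c₁ (Nat.mul c₂ (Nat.mul n n)))

/-- red centre -/
def lr5 (A B C E c₁ c₃ p t n : ℕ) : Bool :=
  Nat.beq (Nat.add (sm5 A B C E p t) (Nat.mul c₃ (Nat.mul n n))) c₁

/-- the thirty two diamonds with a given boundary -/
def in5 (A B C E sN sW sE sS rN rW rE rS κ c₁ c₂ c₃ : ℕ) : Bool :=
  an
    (br5 (br5 (br5 (br5 (fun p t n => lb5 A B C E κ c₁ c₂ p t n)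
      (nat_lit 1408) (nat_lit 352) sS) (nat_lit 352) (nat_lit 1408) sE)
      (nat_lit 88) (nat_lit 22) sW) (nat_lit 22) (nat_lit 88) sN
      (nat_lit 176) (nat_lit 176) (nat_lit 0))
    (bs5 (bs5 (bs5 (bs5 (fun p t n => lr5 A B C E c₁ c₃ p t n)
      (nat_lit 1408) (nat_lit 352) rS) (nat_lit 352) (nat_lit 1408) rE)
      (nat_lit 88) (nat_lit 22) rW) (nat_lit 22) (nat_lit 88) rN
      (nat_lit 0) (nat_lit 0) (nat_lit 0))

/-- part of a row -/
def pt5 (G r k : ℕ) : ℕ := Nat.shiftRight (rw5 G r) (Nat.mul (nat_lit 22) k)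

/-- five bits -/
def f5 (a b c d e : ℕ) : ℕ := Nat.add a (Nat.mul (nat_lit 2) (Nat.add b (Nat.mul (nat_lit 2)
  (Nat.add c (Nat.mul (nat_lit 2) (Nat.add d (Nat.mul (nat_lit 2) e)))))))

/-- the identity for all diamonds -/
def dm5 (G₁ G₂ κ o D p q : ℕ) : Bool :=
  al2 fun x0 => al2 fun x1 => al2 fun x3 => al2 fun x4 => al2 fun x8 => al2 fun x9 =>
  al2 fun x11 => al2 fun x12 =>
    in5
      (pt5 G₁ (f5 x0 x1 x4 x9 x12) (Nat.add (Nat.mul (nat_lit 2) x3)
        (Nat.add (Nat.mul (nat_lit 32) x8) (Nat.mul (nat_lit 128) x11))))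
      (pt5 G₂ (f5 x0 x3 x8 x11 x12) (Nat.add x1
        (Nat.add (Nat.mul (nat_lit 4) x4) (Nat.mul (nat_lit 64) x9))))
      (pt5 G₁ (f5 x4 x1 x0 x3 x8) (Nat.add (Nat.mul (nat_lit 2) x9)
        (Nat.add (Nat.mul (nat_lit 32) x12) (Nat.mul (nat_lit 128) x11))))
      (pt5 G₂ (f5 x4 x9 x12 x11 x8) (Nat.add x1
        (Nat.add (Nat.mul (nat_lit 4) x0) (Nat.mul (nat_lit 64) x3))))
      (Nat.add (Nat.add x0 x1) (Nat.add x3 (nat_lit 1)))
      (Nat.add (Nat.add x1 x9) (Nat.add x4 (nat_lit 1)))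
      (Nat.add (Nat.add x3 x11) (Nat.add x8 (nat_lit 1)))
      (Nat.add (Nat.add x9 x11) (Nat.add x12 (nat_lit 1)))
      (Nat.sub (nat_lit 4) (Nat.add (Nat.add x0 x1) x3))
      (Nat.sub (nat_lit 4) (Nat.add (Nat.add x1 x9) x4))
      (Nat.sub (nat_lit 4) (Nat.add (Nat.add x3 x11) x8))
      (Nat.sub (nat_lit 4) (Nat.add (Nat.add x9 x11) x12))
      κ (Nat.add (Nat.mul (nat_lit 4) o) (Nat.mul D (Nat.mul (nat_lit 256) p))) (Nat.mul D q)
      (Nat.mul D p)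

/-- the sum for an octagon and its transpose -/
def oc5 (A B C E o p t : ℕ) : Bool :=
  Nat.beq (Nat.add (Nat.add (fd5 A (Nat.mul (nat_lit 8) p)) (fd5 B p))
    (Nat.add (fd5 C (Nat.mul (nat_lit 8) t)) (fd5 E t))) (Nat.mul (nat_lit 4) o)

/-- branching with two accumulators -/
def bt5 (f : ℕ → ℕ → Bool) (wp wt p t : ℕ) : Bool :=
  an (f p t) (f (Nat.add p wp) (Nat.add t wt))

/-- four bits -/
def f4 (a b c d : ℕ) : ℕ := Nat.add a (Nat.mul (nat_lit 2) (Nat.add b (Nat.mul (nat_lit 2)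
  (Nat.add c (Nat.mul (nat_lit 2) d)))))

/-- the identity for all octagons -/
def om5 (M₁ M₂ o : ℕ) : Bool :=
  al2 fun x0 => al2 fun x1 => al2 fun x2 => al2 fun x5 => al2 fun x6 => al2 fun x9 =>
  al2 fun x10 => al2 fun x11 =>
    bt5 (bt5 (bt5 (bt5 (fun p t => oc5
      (pt5 M₁ (f4 x6 x9 x10 x11) (Nat.add (Nat.add x0 (Nat.mul (nat_lit 2) x1))
        (Nat.add (Nat.mul (nat_lit 4) x2) (Nat.mul (nat_lit 32) x5))))
      (pt5 M₂ (f4 x0 x1 x2 x5) (Nat.mul (nat_lit 4) (Nat.add x6 (Nat.mul (nat_lit 8)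
        (Nat.add x9 (Nat.add (Nat.mul (nat_lit 2) x10) (Nat.mul (nat_lit 4) x11)))))))
      (pt5 M₁ (f4 x1 x11 x5 x9) (Nat.add (Nat.add x2 (Nat.mul (nat_lit 2) x6))
        (Nat.add (Nat.mul (nat_lit 4) x0) (Nat.mul (nat_lit 32) x10))))
      (pt5 M₂ (f4 x2 x6 x0 x10) (Nat.mul (nat_lit 4) (Nat.add x1 (Nat.mul (nat_lit 8)
        (Nat.add x11 (Nat.add (Nat.mul (nat_lit 2) x5) (Nat.mul (nat_lit 4) x9)))))))
      o p t)
      (nat_lit 352) (nat_lit 352)) (nat_lit 176) (nat_lit 44))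
      (nat_lit 44) (nat_lit 176)) (nat_lit 22) (nat_lit 22)
      (nat_lit 0) (nat_lit 0)

/-- the check of a packed certificate -/
def ckP (G₁ G₂ M₁ M₂ κ oG oM o D p q : ℕ) : Bool :=
  an (an (bd5 G₁ (nat_lit 8192)) (an (bd5 G₂ (nat_lit 8192)) (an (bd5 M₁ (nat_lit 4096))
    (bd5 M₂ (nat_lit 4096)))))
    (an (an (Nat.beq o (Nat.add (Nat.mul (nat_lit 2) oG) (Nat.mul (nat_lit 2) oM)))
      (Nat.ble o (nat_lit 2097152)))
      (an (ws5 G₁ G₂ M₁ M₂ o) (an (om5 M₁ M₂ oM) (dm5 G₁ G₂ κ oG D p q))))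

end Pool.Agent.H43.TC
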