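import Pool.Agent.H43.TC.Chk5

/-!
# Packed certificates are certificates (MP_183c3b_co)
-/

set_option autoImplicit false

namespace Pool.Agent.H43.TC

/-! ### packed numbers -/

/-- the number with the fields `f 0, …, f (n - 1)` of width `w` -/
def pk (w : ℕ) : ℕ → (ℕ → ℕ) → ℕ
  | 0, _ => 0
  | n + 1, f => f 0 + 2 ^ w * pk w n (fun i => f (i + 1))

theorem get_zero (w X : ℕ) : get w X 0 = X % 2 ^ w := by
  simp [get]

theorem get_succ (w X i : ℕ) : get w X (i + 1) = get w (X / 2 ^ w) i := by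
  unfold get
  rw [Nat.shiftRight_eq_div_pow, Nat.shiftRight_eq_div_pow, Nat.div_div_eq_div_mul, ← pow_add]
  congr 3
  ring

theorem get_lt (w X i : ℕ) : get w X i < 2 ^ w := Nat.mod_lt _ (by positivity)

theorem get_pk (w : ℕ) : ∀ (i n : ℕ) (f : ℕ → ℕ), (∀ j < n, f j < 2 ^ w) → i < n →
    get w (pk w n f) i = f i := by
  intro i
  induction i with
  | zero =>
    intro n f hf hn
    obtain ⟨m, rfl⟩ : ∃ m, n = m + 1 := ⟨n - 1, by omega⟩
    rw [get_zero, pk, Nat.add_mul_mod_self_left, Nat.mod_eq_of_lt (hf 0 (by omega))]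
  | succ i ih =>
    intro n f hf hn
    obtain ⟨m, rfl⟩ : ∃ m, n = m + 1 := ⟨n - 1, by omega⟩
    have h0 := hf 0 (by omega)
    rw [get_succ, pk, Nat.add_mul_div_left _ _ (by positivity), Nat.div_eq_of_lt h0, zero_add]
    exact ih m (fun i => f (i + 1)) (fun j hj => hf (j + 1) (by omega)) (by omega)

theorem pk_add (w : ℕ) : ∀ (n : ℕ) (f g : ℕ → ℕ),
    pk w n f + pk w n g = pk w n (fun i => f i + g i) := by
  intro n
  induction n with
  | zero => intro f g; rfl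
  | succ n ih =>
    intro f g
    simp only [pk]
    rw [← ih]
    ring

theorem pk_mul (w c : ℕ) : ∀ (n : ℕ) (f : ℕ → ℕ), c * pk w n f = pk w n (fun i => c * f i) := by
  intro n
  induction n with
  | zero => intro f; rfl
  | succ n ih =>
    intro f
    simp only [pk]
    rw [← ih]
    ring

theorem pk_get (w : ℕ) : ∀ (n X : ℕ), X < 2 ^ (w * n) → pk w n (fun i => get w X i) = X := by
  intro n
  induction n with
  | zero =>
    intro X h
    have : X = 0 := by simpa using h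
    rw [this]
    rfl
  | succ n ih =>
    intro X h
    simp only [pk]
    have h1 : (fun i => get w X (i + 1)) = fun i => get w (X / 2 ^ w) i := by
      funext i
      exact get_succ w X i
    rw [h1, ih, get_zero, Nat.mod_add_div]
    apply Nat.div_lt_of_lt_mul
    rw [← pow_add]
    rwa [show w + w * n = w * (n + 1) by ring]

theorem pk_ones (w : ℕ) : ∀ n : ℕ, (2 ^ w - 1) * pk w n (fun _ => 1) + 1 = 2 ^ (w * n) := by
  intro n
  induction n with
  | zero => rfl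
  | succ n ih =>
    simp only [pk]
    have h1 : 1 ≤ 2 ^ w := Nat.one_le_two_pow
    obtain ⟨m, hm⟩ : ∃ m, 2 ^ w = m + 1 := ⟨2 ^ w - 1, by omega⟩
    rw [show w * (n + 1) = w + w * n by ring, pow_add, ← ih, hm]
    simp only [Nat.add_sub_cancel]
    ring

theorem on5_eq (n : ℕ) : on5 n = pk 22 n (fun _ => 1) := by
  have h := pk_ones 22 n
  have h2 : on5 n = (2 ^ (22 * n) - 1) / 4194303 := rfl
  rw [h2, ← h, Nat.add_sub_cancel]
  exact Nat.mul_div_cancel_left _ (by norm_num)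

theorem get_ones (n i c : ℕ) (hc : c < 2 ^ 22) (hi : i < n) :
    get 22 (c * pk 22 n (fun _ => 1)) i = c := by
  rw [pk_mul, get_pk 22 i n _ (fun j _ => by simpa using hc) hi, mul_one]

theorem get_and (w X Y i : ℕ) : get w (X &&& Y) i = get w X i &&& get w Y i := by
  unfold get
  rw [Nat.shiftRight_and_distrib, Nat.and_mod_two_pow]

/-! ### loops -/

theorem an_iff (x y : Bool) : an x y = true ↔ x = true ∧ y = true := by
  cases x <;> simp [an]

theorem al2_spec {f : ℕ → Bool} (h : al2 f = true) {r : ℕ} (hr : r < 2) : f r = true := by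
  unfold al2 at h
  rw [an_iff] at h
  interval_cases r
  · exact h.1
  · exact h.2

theorem all2_of (f : ℕ → Bool) (h : ∀ r < 2, f r = true) : all2 f = true := by
  unfold all2
  rw [h 0 (by norm_num), h 1 (by norm_num)]
  rfl

theorem all4_of (f : ℕ → Bool) (h : ∀ r < 4, f r = true) : all4 f = true := by
  unfold all4
  rw [h 0 (by norm_num), h 1 (by norm_num), h 2 (by norm_num), h 3 (by norm_num)]
  rfl

theorem all_of (f : ℕ → Bool) (h : ∀ r < 16, f r = true) : all f = true := by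
  unfold all
  rw [h 0 (by norm_num), h 1 (by norm_num), h 2 (by norm_num), h 3 (by norm_num),
    h 4 (by norm_num), h 5 (by norm_num), h 6 (by norm_num), h 7 (by norm_num),
    h 8 (by norm_num), h 9 (by norm_num), h 10 (by norm_num), h 11 (by norm_num),
    h 12 (by norm_num), h 13 (by norm_num), h 14 (by norm_num), h 15 (by norm_num)]
  rfl

/-! ### bounds -/

theorem bd5_spec {G n : ℕ} (h : bd5 G n = true) {i : ℕ} (hi : i < n) : get 22 G i < 2 ^ 19 := by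
  have h1 : (G >>> 19) &&& (7 * on5 n) = 0 := Nat.eq_of_beq_eq_true h
  rw [on5_eq] at h1
  have h2 : get 22 ((G >>> 19) &&& (7 * pk 22 n (fun _ => 1))) i = 0 := by
    rw [h1]
    simp [get]
  rw [get_and, get_ones n i 7 (by norm_num) hi] at h2
  have h3 := Nat.and_two_pow_sub_one_eq_mod (get 22 (G >>> 19) i) 3
  norm_num at h3
  rw [h3] at h2
  unfold get at h2 ⊢
  rw [← Nat.shiftRight_add, Nat.shiftRight_eq_div_pow] at h2
  rw [Nat.shiftRight_eq_div_pow]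
  rw [Nat.add_comm, pow_add, ← Nat.div_div_eq_div_mul] at h2
  norm_num at h2 ⊢
  omega

/-! ### comparison of rows -/

theorem rw5_eq (G r : ℕ) : rw5 G r = get (256 * 22) G r := by
  unfold rw5 get
  rfl

theorem get_rw5 (G r i : ℕ) (hi : i < 256) : get 22 (rw5 G r) i = get 22 G (i + 256 * r) := by
  rw [rw5_eq]
  exact get_get 22 256 G i r hi

theorem rw5_lt (G r : ℕ) : rw5 G r < 2 ^ (22 * 256) := by
  rw [rw5_eq]
  exact get_lt _ _ _

theorem lf5_spec {X Y Z T o : ℕ} (hX : X < 2 ^ (22 * 256)) (hY : Y < 2 ^ (22 * 256))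
    (hZ : Z < 2 ^ (22 * 256)) (hT : T < 2 ^ (22 * 256))
    (bX : ∀ i < 256, get 22 X i < 2 ^ 19) (bY : ∀ i < 256, get 22 Y i < 2 ^ 19)
    (bZ : ∀ i < 256, get 22 Z i < 2 ^ 19) (bT : ∀ i < 256, get 22 T i < 2 ^ 19)
    (ho : o ≤ 2097152)
    {K H : ℕ} (hK : K = (2097152 - o) * pk 22 256 (fun _ => 1))
    (hH : H = 2097152 * pk 22 256 (fun _ => 1))
    (h : lf5 X Y Z T K H = true) {i : ℕ} (hi : i < 256) :
    o ≤ get 22 X i + get 22 Y i + get 22 Z i + get 22 T i := by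
  have h1 : (X + Y + (Z + T) + K) &&& H = H := Nat.eq_of_beq_eq_true h
  rw [hK, hH] at h1
  have h2 := congrArg (fun x => get 22 x i) h1
  simp only [] at h2
  rw [get_and, get_ones 256 i 2097152 (by norm_num) hi] at h2
  have h3 : 2097152 ≤ get 22 (X + Y + (Z + T) + (2097152 - o) * pk 22 256 (fun _ => 1)) i := by
    calc 2097152 = _ &&& 2097152 := h2.symm
      _ ≤ _ := Nat.and_le_left
  have h4 : X + Y + (Z + T) + (2097152 - o) * pk 22 256 (fun _ => 1) =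
      pk 22 256 (fun i => get 22 X i + get 22 Y i + (get 22 Z i + get 22 T i) +
        (2097152 - o) * 1) := by
    rw [← pk_add, ← pk_add, ← pk_add, ← pk_add, pk_get 22 256 X hX, pk_get 22 256 Y hY,
      pk_get 22 256 Z hZ, pk_get 22 256 T hT, pk_mul]
  rw [h4, get_pk 22 i 256 _ _ hi] at h3
  · omega
  · intro j hj
    have := bX j hj
    have := bY j hj
    have := bZ j hj
    have := bT j hj
    have : 2097152 - o ≤ 2097152 := Nat.sub_le _ _
    omega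

theorem K5_eq (o : ℕ) : Nat.mul (Nat.sub (nat_lit 2097152) o) (on5 (nat_lit 256)) =
    (2097152 - o) * pk 22 256 (fun _ => 1) := by
  rw [← on5_eq]
  generalize on5 256 = t
  rfl

theorem H5_eq : Nat.mul (nat_lit 2097152) (on5 (nat_lit 256)) =
    2097152 * pk 22 256 (fun _ => 1) := by
  rw [← on5_eq]
  generalize on5 256 = t
  rfl

theorem ws5_spec {G₁ G₂ M₁ M₂ o : ℕ} (h : ws5 G₁ G₂ M₁ M₂ o = true) (ho : o ≤ 2097152)
    (b₁ : ∀ i < 8192, get 22 G₁ i < 2 ^ 19) (b₂ : ∀ i < 8192, get 22 G₂ i < 2 ^ 19)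
    (b₃ : ∀ i < 4096, get 22 M₁ i < 2 ^ 19) (b₄ : ∀ i < 4096, get 22 M₂ i < 2 ^ 19)
    {a0 a1 b0 b3 c0 c5 d0 d3 e0 e1 i : ℕ} (ha0 : a0 < 2) (ha1 : a1 < 2) (hb0 : b0 < 2)
    (hb3 : b3 < 2) (hc0 : c0 < 2) (hc5 : c5 < 2) (hd0 : d0 < 2) (hd3 : d3 < 2) (he0 : e0 < 2)
    (he1 : e1 < 2) (hi : i < 256) :
    o ≤ get 22 G₁ (i + 256 * (a0 + 2 * b0 + 4 * c0 + 8 * d0 + 16 * e0)) +
      get 22 G₂ (i + 256 * (a1 + 2 * b3 + 4 * c5 + 8 * d3 + 16 * e1)) +
      get 22 M₁ (i + 256 * (d0 + 2 * d3 + 4 * e0 + 8 * e1)) +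
      get 22 M₂ (i + 256 * (a0 + 2 * a1 + 4 * b0 + 8 * b3)) := by
  have h1 := al2_spec (al2_spec (al2_spec (al2_spec (al2_spec (al2_spec (al2_spec (al2_spec
    (al2_spec (al2_spec h he0) he1) hd0) hd3) ha0) hb0) ha1) hb3) hc0) hc5
  have h2 := lf5_spec (rw5_lt _ _) (rw5_lt _ _) (rw5_lt _ _) (rw5_lt _ _) ?_ ?_ ?_ ?_ ho (K5_eq o) H5_eq h1 hi
  · rw [get_rw5 _ _ _ hi, get_rw5 _ _ _ hi, get_rw5 _ _ _ hi, get_rw5 _ _ _ hi] at h2
    have e1' : a0 + 2 * b0 + (8 * d0 + 16 * e0) + 4 * c0 =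
      a0 + 2 * b0 + 4 * c0 + 8 * d0 + 16 * e0 := by ring
    have e2' : a1 + 2 * b3 + (8 * d3 + 16 * e1) + 4 * c5 =
      a1 + 2 * b3 + 4 * c5 + 8 * d3 + 16 * e1 := by ring
    have e3' : d0 + 2 * d3 + (4 * e0 + 8 * e1) = d0 + 2 * d3 + 4 * e0 + 8 * e1 := by ring
    have e4' : a0 + 2 * a1 + (4 * b0 + 8 * b3) = a0 + 2 * a1 + 4 * b0 + 8 * b3 := by ring
    rw [← e1', ← e2', ← e3', ← e4']
    exact h2
  · intro j hj
    rw [get_rw5 _ _ _ hj]
    apply b₁
    change j + 256 * (a0 + 2 * b0 + (8 * d0 + 16 * e0) + 4 * c0) < 8192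
    omega
  · intro j hj
    rw [get_rw5 _ _ _ hj]
    apply b₂
    change j + 256 * (a1 + 2 * b3 + (8 * d3 + 16 * e1) + 4 * c5) < 8192
    omega
  · intro j hj
    rw [get_rw5 _ _ _ hj]
    apply b₃
    change j + 256 * (d0 + 2 * d3 + (4 * e0 + 8 * e1)) < 4096
    omega
  · intro j hj
    rw [get_rw5 _ _ _ hj]
    apply b₄
    change j + 256 * (a0 + 2 * a1 + (4 * b0 + 8 * b3)) < 4096
    omega

/-! ### fields of rows -/

theorem fd5_pt5 (G r k j p : ℕ) (hp : p = 22 * j) (h : k + j < 256) :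
    fd5 (pt5 G r k) p = get 22 G (k + j + 256 * r) := by
  subst hp
  have h1 : fd5 (pt5 G r k) (22 * j) = ((rw5 G r >>> (22 * k)) >>> (22 * j)) % 2 ^ 22 := rfl
  rw [h1, ← Nat.shiftRight_add, ← Nat.mul_add, ← get_rw5 _ _ _ h]
  rfl

theorem br5_spec {f : ℕ → ℕ → ℕ → Bool} {wp wt s p t n : ℕ} (h : br5 f wp wt s p t n = true)
    {x : ℕ} (hx : x < 2) : f (p + wp * x) (t + wt * x) (n + x * s) = true := by
  unfold br5 at h
  rw [an_iff] at h
  interval_cases x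
  · simpa using h.1
  · simpa using h.2

theorem bs5_spec {f : ℕ → ℕ → ℕ → Bool} {wp wt s p t n : ℕ} (h : bs5 f wp wt s p t n = true)
    {x : ℕ} (hx : x < 2) : f (p + wp * x) (t + wt * x) (n + (1 - x) * s) = true := by
  unfold bs5 at h
  rw [an_iff] at h
  interval_cases x
  · simpa using h.1
  · simpa using h.2

theorem bt5_spec {f : ℕ → ℕ → Bool} {wp wt p t : ℕ} (h : bt5 f wp wt p t = true)
    {x : ℕ} (hx : x < 2) : f (p + wp * x) (t + wt * x) = true := by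
  unfold bt5 at h
  rw [an_iff] at h
  interval_cases x
  · simpa using h.1
  · simpa using h.2

theorem in5_spec {A B C E sN sW sE sS rN rW rE rS κ c₁ c₂ c₃ : ℕ}
    (h : in5 A B C E sN sW sE sS rN rW rE rS κ c₁ c₂ c₃ = true)
    {x2 x5 x6 x7 x10 : ℕ} (h2 : x2 < 2) (h5 : x5 < 2) (h6 : x6 < 2) (h7 : x7 < 2)
    (h10 : x10 < 2) :
    fd5 A (22 * (x2 + 4 * x5 + 8 * x6 + 16 * x7 + 64 * x10)) +
      fd5 B (22 * (2 * x2 + 8 * x5 + 16 * x6 + 32 * x7 + 128 * x10)) +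
      fd5 C (22 * (x5 + 4 * x2 + 8 * x6 + 16 * x10 + 64 * x7)) +
      fd5 E (22 * (2 * x5 + 8 * x2 + 16 * x6 + 32 * x10 + 128 * x7)) + κ * x6 +
      c₃ * ((1 - x6) * ((1 - x2) * rN + (1 - x5) * rW + (1 - x7) * rE + (1 - x10) * rS)) ^ 2 =
    c₁ + c₂ * (x6 * (x2 * sN + x5 * sW + x7 * sE + x10 * sS)) ^ 2 := by
  unfold in5 at h
  rw [an_iff] at h
  have e1 : 22 * (x2 + 4 * x5 + 8 * x6 + 16 * x7 + 64 * x10) =
    176 * x6 + 22 * x2 + 88 * x5 + 352 * x7 + 1408 * x10 := by ring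
  have e2 : 22 * (2 * x2 + 8 * x5 + 16 * x6 + 32 * x7 + 128 * x10) =
    2 * (176 * x6 + 22 * x2 + 88 * x5 + 352 * x7 + 1408 * x10) := by ring
  have e3 : 22 * (x5 + 4 * x2 + 8 * x6 + 16 * x10 + 64 * x7) =
    176 * x6 + 88 * x2 + 22 * x5 + 1408 * x7 + 352 * x10 := by ring
  have e4 : 22 * (2 * x5 + 8 * x2 + 16 * x6 + 32 * x10 + 128 * x7) =
    2 * (176 * x6 + 88 * x2 + 22 * x5 + 1408 * x7 + 352 * x10) := by ring
  rw [e1, e2, e3, e4]
  interval_cases x6
  · have h1 := bs5_spec (bs5_spec (bs5_spec (bs5_spec h.2 h2) h5) h7) h10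
    have h3 := Nat.eq_of_beq_eq_true h1
    change fd5 A (0 + 22 * x2 + 88 * x5 + 352 * x7 + 1408 * x10) +
      fd5 B (2 * (0 + 22 * x2 + 88 * x5 + 352 * x7 + 1408 * x10)) +
      (fd5 C (0 + 88 * x2 + 22 * x5 + 1408 * x7 + 352 * x10) +
      fd5 E (2 * (0 + 88 * x2 + 22 * x5 + 1408 * x7 + 352 * x10))) +
      c₃ * ((0 + (1 - x2) * rN + (1 - x5) * rW + (1 - x7) * rE + (1 - x10) * rS) *
        (0 + (1 - x2) * rN + (1 - x5) * rW + (1 - x7) * rE + (1 - x10) * rS)) = c₁ at h3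
    simp only [Nat.mul_zero, Nat.sub_zero, Nat.one_mul, Nat.zero_mul, Nat.add_zero, zero_add,
      ne_eq, OfNat.ofNat_ne_zero, not_false_eq_true, zero_pow] at h3 ⊢
    rw [← h3]
    ring
  · have h1 := br5_spec (br5_spec (br5_spec (br5_spec h.1 h2) h5) h7) h10
    have h3 := Nat.eq_of_beq_eq_true h1
    change fd5 A (176 + 22 * x2 + 88 * x5 + 352 * x7 + 1408 * x10) +
      fd5 B (2 * (176 + 22 * x2 + 88 * x5 + 352 * x7 + 1408 * x10)) +
      (fd5 C (176 + 88 * x2 + 22 * x5 + 1408 * x7 + 352 * x10) +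
      fd5 E (2 * (176 + 88 * x2 + 22 * x5 + 1408 * x7 + 352 * x10))) + κ =
      c₁ + c₂ * ((0 + x2 * sN + x5 * sW + x7 * sE + x10 * sS) *
        (0 + x2 * sN + x5 * sW + x7 * sE + x10 * sS)) at h3
    simp only [Nat.mul_one, Nat.sub_self, Nat.one_mul, Nat.zero_mul, zero_add,
      ne_eq, OfNat.ofNat_ne_zero, not_false_eq_true, zero_pow, Nat.mul_zero, Nat.add_zero]
      at h3 ⊢
    rw [← Nat.add_assoc] at h3
    rw [h3]
    ring

end Pool.Agent.H43.TC
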