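import Pool.Agent.H43.TC.Chk6

/-!
# From packed certificates to certificates (MP_183c3b_co)
-/

set_option autoImplicit false

namespace Pool.Agent.H43.TC

/-- a bit -/
def bt (u j : ℕ) : ℕ := u / 2 ^ j % 2

theorem bt_lt (u j : ℕ) : bt u j < 2 := Nat.mod_lt _ (by norm_num)

/-- position of a diamond in the left table -/
def P1 (u : ℕ) : ℕ :=
  (bt u 2 + 2 * bt u 3 + 4 * bt u 5 + 8 * bt u 6 + 16 * bt u 7 + 32 * bt u 8 + 64 * bt u 10 +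
    128 * bt u 11) + 256 * (bt u 0 + 2 * bt u 1 + 4 * bt u 4 + 8 * bt u 9 + 16 * bt u 12)

/-- position of a diamond in the right table -/
def P2 (u : ℕ) : ℕ :=
  (bt u 1 + 2 * bt u 2 + 4 * bt u 4 + 8 * bt u 5 + 16 * bt u 6 + 32 * bt u 7 + 64 * bt u 9 +
    128 * bt u 10) + 256 * (bt u 0 + 2 * bt u 3 + 4 * bt u 8 + 8 * bt u 11 + 16 * bt u 12)

/-- position of an octagon in the upper table -/
def P3 (u : ℕ) : ℕ :=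
  (bt u 0 + 2 * bt u 1 + 4 * bt u 2 + 8 * bt u 3 + 16 * bt u 4 + 32 * bt u 5 + 64 * bt u 7 +
    128 * bt u 8) + 256 * (bt u 6 + 2 * bt u 9 + 4 * bt u 10 + 8 * bt u 11)

/-- position of an octagon in the lower table -/
def P4 (u : ℕ) : ℕ :=
  (bt u 3 + 2 * bt u 4 + 4 * bt u 6 + 8 * bt u 7 + 16 * bt u 8 + 32 * bt u 9 + 64 * bt u 10 +
    128 * bt u 11) + 256 * (bt u 0 + 2 * bt u 1 + 4 * bt u 2 + 8 * bt u 5)

/-- the four tables in the standard order -/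
def st1 (G : ℕ) : ℕ := pk 22 8192 (fun u => get 22 G (P1 u))

/-- the four tables in the standard order -/
def st2 (G : ℕ) : ℕ := pk 22 8192 (fun u => get 22 G (P2 u))

/-- the four tables in the standard order -/
def st3 (G : ℕ) : ℕ := pk 22 4096 (fun u => get 22 G (P3 u))

/-- the four tables in the standard order -/
def st4 (G : ℕ) : ℕ := pk 22 4096 (fun u => get 22 G (P4 u))

theorem get_st1 (G u : ℕ) (h : u < 8192) : get 22 (st1 G) u = get 22 G (P1 u) :=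
  get_pk 22 u 8192 _ (fun _ _ => get_lt _ _ _) h

theorem get_st2 (G u : ℕ) (h : u < 8192) : get 22 (st2 G) u = get 22 G (P2 u) :=
  get_pk 22 u 8192 _ (fun _ _ => get_lt _ _ _) h

theorem get_st3 (G u : ℕ) (h : u < 4096) : get 22 (st3 G) u = get 22 G (P3 u) :=
  get_pk 22 u 4096 _ (fun _ _ => get_lt _ _ _) h

theorem get_st4 (G u : ℕ) (h : u < 4096) : get 22 (st4 G) u = get 22 G (P4 u) :=
  get_pk 22 u 4096 _ (fun _ _ => get_lt _ _ _) h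

section diamond

variable {x0 x1 x2 x3 x4 x5 x6 x7 x8 x9 x10 x11 x12 : ℕ} (h0 : x0 < 2) (h1 : x1 < 2)
  (h2 : x2 < 2) (h3 : x3 < 2) (h4 : x4 < 2) (h5 : x5 < 2) (h6 : x6 < 2) (h7 : x7 < 2)
  (h8 : x8 < 2) (h9 : x9 < 2) (h10 : x10 < 2) (h11 : x11 < 2) (h12 : x12 < 2)

include h0 h1 h2 h3 h4 h5 h6 h7 h8 h9 h10 h11 h12

theorem dx_lt : dx x0 x1 x2 x3 x4 x5 x6 x7 x8 x9 x10 x11 x12 < 8192 := by
  unfold dx
  omega

theorem bt_dx : bt (dx x0 x1 x2 x3 x4 x5 x6 x7 x8 x9 x10 x11 x12) 0 = x0 ∧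
    bt (dx x0 x1 x2 x3 x4 x5 x6 x7 x8 x9 x10 x11 x12) 1 = x1 ∧
    bt (dx x0 x1 x2 x3 x4 x5 x6 x7 x8 x9 x10 x11 x12) 2 = x2 ∧
    bt (dx x0 x1 x2 x3 x4 x5 x6 x7 x8 x9 x10 x11 x12) 3 = x3 ∧
    bt (dx x0 x1 x2 x3 x4 x5 x6 x7 x8 x9 x10 x11 x12) 4 = x4 ∧
    bt (dx x0 x1 x2 x3 x4 x5 x6 x7 x8 x9 x10 x11 x12) 5 = x5 ∧
    bt (dx x0 x1 x2 x3 x4 x5 x6 x7 x8 x9 x10 x11 x12) 6 = x6 ∧
    bt (dx x0 x1 x2 x3 x4 x5 x6 x7 x8 x9 x10 x11 x12) 7 = x7 ∧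
    bt (dx x0 x1 x2 x3 x4 x5 x6 x7 x8 x9 x10 x11 x12) 8 = x8 ∧
    bt (dx x0 x1 x2 x3 x4 x5 x6 x7 x8 x9 x10 x11 x12) 9 = x9 ∧
    bt (dx x0 x1 x2 x3 x4 x5 x6 x7 x8 x9 x10 x11 x12) 10 = x10 ∧
    bt (dx x0 x1 x2 x3 x4 x5 x6 x7 x8 x9 x10 x11 x12) 11 = x11 ∧
    bt (dx x0 x1 x2 x3 x4 x5 x6 x7 x8 x9 x10 x11 x12) 12 = x12 := by
  unfold bt dx
  norm_num
  refine ⟨?_, ?_, ?_, ?_, ?_, ?_, ?_, ?_, ?_, ?_, ?_, ?_, ?_⟩ <;> omega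

theorem P1_dx : P1 (dx x0 x1 x2 x3 x4 x5 x6 x7 x8 x9 x10 x11 x12) =
    (x2 + 2 * x3 + 4 * x5 + 8 * x6 + 16 * x7 + 32 * x8 + 64 * x10 + 128 * x11) +
      256 * (x0 + 2 * x1 + 4 * x4 + 8 * x9 + 16 * x12) := by
  obtain ⟨e0, e1, e2, e3, e4, e5, e6, e7, e8, e9, e10, e11, e12⟩ :=
    bt_dx h0 h1 h2 h3 h4 h5 h6 h7 h8 h9 h10 h11 h12
  unfold P1
  rw [e0, e1, e2, e3, e4, e5, e6, e7, e8, e9, e10, e11, e12]

theorem P2_dx : P2 (dx x0 x1 x2 x3 x4 x5 x6 x7 x8 x9 x10 x11 x12) =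
    (x1 + 2 * x2 + 4 * x4 + 8 * x5 + 16 * x6 + 32 * x7 + 64 * x9 + 128 * x10) +
      256 * (x0 + 2 * x3 + 4 * x8 + 8 * x11 + 16 * x12) := by
  obtain ⟨e0, e1, e2, e3, e4, e5, e6, e7, e8, e9, e10, e11, e12⟩ :=
    bt_dx h0 h1 h2 h3 h4 h5 h6 h7 h8 h9 h10 h11 h12
  unfold P2
  rw [e0, e1, e2, e3, e4, e5, e6, e7, e8, e9, e10, e11, e12]

end diamond

section octagon

variable {x0 x1 x2 x3 x4 x5 x6 x7 x8 x9 x10 x11 : ℕ} (h0 : x0 < 2) (h1 : x1 < 2)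
  (h2 : x2 < 2) (h3 : x3 < 2) (h4 : x4 < 2) (h5 : x5 < 2) (h6 : x6 < 2) (h7 : x7 < 2)
  (h8 : x8 < 2) (h9 : x9 < 2) (h10 : x10 < 2) (h11 : x11 < 2)

include h0 h1 h2 h3 h4 h5 h6 h7 h8 h9 h10 h11

theorem ox_lt : ox x0 x1 x2 x3 x4 x5 x6 x7 x8 x9 x10 x11 < 4096 := by
  unfold ox
  omega

theorem bt_ox : bt (ox x0 x1 x2 x3 x4 x5 x6 x7 x8 x9 x10 x11) 0 = x0 ∧
    bt (ox x0 x1 x2 x3 x4 x5 x6 x7 x8 x9 x10 x11) 1 = x1 ∧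
    bt (ox x0 x1 x2 x3 x4 x5 x6 x7 x8 x9 x10 x11) 2 = x2 ∧
    bt (ox x0 x1 x2 x3 x4 x5 x6 x7 x8 x9 x10 x11) 3 = x3 ∧
    bt (ox x0 x1 x2 x3 x4 x5 x6 x7 x8 x9 x10 x11) 4 = x4 ∧
    bt (ox x0 x1 x2 x3 x4 x5 x6 x7 x8 x9 x10 x11) 5 = x5 ∧
    bt (ox x0 x1 x2 x3 x4 x5 x6 x7 x8 x9 x10 x11) 6 = x6 ∧
    bt (ox x0 x1 x2 x3 x4 x5 x6 x7 x8 x9 x10 x11) 7 = x7 ∧
    bt (ox x0 x1 x2 x3 x4 x5 x6 x7 x8 x9 x10 x11) 8 = x8 ∧
    bt (ox x0 x1 x2 x3 x4 x5 x6 x7 x8 x9 x10 x11) 9 = x9 ∧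
    bt (ox x0 x1 x2 x3 x4 x5 x6 x7 x8 x9 x10 x11) 10 = x10 ∧
    bt (ox x0 x1 x2 x3 x4 x5 x6 x7 x8 x9 x10 x11) 11 = x11 := by
  unfold bt ox
  norm_num
  refine ⟨?_, ?_, ?_, ?_, ?_, ?_, ?_, ?_, ?_, ?_, ?_, ?_⟩ <;> omega

theorem P3_ox : P3 (ox x0 x1 x2 x3 x4 x5 x6 x7 x8 x9 x10 x11) =
    (x0 + 2 * x1 + 4 * x2 + 8 * x3 + 16 * x4 + 32 * x5 + 64 * x7 + 128 * x8) +
      256 * (x6 + 2 * x9 + 4 * x10 + 8 * x11) := by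
  obtain ⟨e0, e1, e2, e3, e4, e5, e6, e7, e8, e9, e10, e11⟩ :=
    bt_ox h0 h1 h2 h3 h4 h5 h6 h7 h8 h9 h10 h11
  unfold P3
  rw [e0, e1, e2, e3, e4, e5, e6, e7, e8, e9, e10, e11]

theorem P4_ox : P4 (ox x0 x1 x2 x3 x4 x5 x6 x7 x8 x9 x10 x11) =
    (x3 + 2 * x4 + 4 * x6 + 8 * x7 + 16 * x8 + 32 * x9 + 64 * x10 + 128 * x11) +
      256 * (x0 + 2 * x1 + 4 * x2 + 8 * x5) := by
  obtain ⟨e0, e1, e2, e3, e4, e5, e6, e7, e8, e9, e10, e11⟩ :=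
    bt_ox h0 h1 h2 h3 h4 h5 h6 h7 h8 h9 h10 h11
  unfold P4
  rw [e0, e1, e2, e3, e4, e5, e6, e7, e8, e9, e10, e11]

end octagon

/-! ### the window inequalities -/

theorem slab_of {w g₁ g₂ v m₁ m₂ o e : ℕ}
    (h : ∀ a < 4, ∀ b < 16, ∀ c < 64, ∀ d < 16,
      o ≤ get w g₁ (li a b c d e) + get w g₂ (ri a b c d e) + get v m₁ (ui b c d e) +
        get v m₂ (vi a b c d)) : slab w g₁ g₂ v m₁ m₂ o e = true := by
  unfold slab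
  apply all_of
  intro d hd
  unfold lvC
  apply all4_of
  intro c₁ hc₁
  apply all_of
  intro c₀ hc₀
  unfold lvB
  apply all_of
  intro b hb
  apply all4_of
  intro a ha
  have h6 := h a ha b hb (16 * c₁ + c₀) (by omega) d hd
  apply Nat.ble_eq_true_of_le
  have hc : 16 * c₁ + c₀ < 64 := by omega
  generalize 16 * c₁ + c₀ = c at h6 hc ⊢
  rw [get_get w 16 _ _ _ (by omega), get_get w 16 _ _ _ (by omega),
    get_get v 4 _ _ _ (by omega), get_get v 64 _ _ _ (by omega),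
    get_get w 512 _ _ _ (by omega), get_get w 512 _ _ _ (by omega),
    get_get v 64 _ _ _ (by omega), get_get v 1024 _ _ _ (by omega)]
  have i1 : a % 2 + 2 * (b % 8) + 16 * (c % 32) + 512 * (d % 8 + 8 * (e % 2)) =
      li a b c d e := by unfold li; ring
  have i2 : a / 2 + 2 * (b / 2) + 16 * (c / 2) + 512 * (d / 2 + 8 * (e / 2)) =
      ri a b c d e := by unfold ri; ring
  have i3 : b / 2 % 4 + 4 * (c / 2 % 16) + 64 * (d + 16 * e) = ui b c d e := by unfold ui; ring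
  have i4 : a + 4 * b + 64 * (c / 2 % 16) + 1024 * (d / 2 % 4) = vi a b c d := by unfold vi; ring
  rw [i1, i2, i3, i4]
  exact h6

theorem slab5 {G₁ G₂ M₁ M₂ o : ℕ} (h : ws5 G₁ G₂ M₁ M₂ o = true) (ho : o ≤ 2097152)
    (b₁ : ∀ i < 8192, get 22 G₁ i < 2 ^ 19) (b₂ : ∀ i < 8192, get 22 G₂ i < 2 ^ 19)
    (b₃ : ∀ i < 4096, get 22 M₁ i < 2 ^ 19) (b₄ : ∀ i < 4096, get 22 M₂ i < 2 ^ 19)
    {e : ℕ} (he : e < 4) :
    slab 22 (st1 G₁) (st2 G₂) 22 (st3 M₁) (st4 M₂) o e = true := by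
  apply slab_of
  intro a ha b hb c hc d hd
  have z (x : ℕ) : x % 2 < 2 := Nat.mod_lt _ (by norm_num)
  have za : a / 2 < 2 := by omega
  have zb : b / 8 < 2 := by omega
  have zc : c / 32 < 2 := by omega
  have zd : d / 8 < 2 := by omega
  have ze : e / 2 < 2 := by omega
  have j1 : li a b c d e = dx (a % 2) (b % 2) (b / 2 % 2) (b / 4 % 2) (c % 2) (c / 2 % 2)
      (c / 4 % 2) (c / 8 % 2) (c / 16 % 2) (d % 2) (d / 2 % 2) (d / 4 % 2) (e % 2) := by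
    unfold li dx
    have w1 : b % 8 = b % 2 + 2 * (b / 2 % 2) + 4 * (b / 4 % 2) := by omega
    have w2 : c % 32 = c % 2 + 2 * (c / 2 % 2) + 4 * (c / 4 % 2) + 8 * (c / 8 % 2) +
      16 * (c / 16 % 2) := by omega
    have w3 : d % 8 = d % 2 + 2 * (d / 2 % 2) + 4 * (d / 4 % 2) := by omega
    rw [w1, w2, w3]
  have j2 : ri a b c d e = dx (a / 2) (b / 2 % 2) (b / 4 % 2) (b / 8) (c / 2 % 2)
      (c / 4 % 2) (c / 8 % 2) (c / 16 % 2) (c / 32) (d / 2 % 2) (d / 4 % 2) (d / 8) (e / 2) := by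
    unfold ri dx
    have w1 : b / 2 = b / 2 % 2 + 2 * (b / 4 % 2) + 4 * (b / 8) := by omega
    have w2 : c / 2 = c / 2 % 2 + 2 * (c / 4 % 2) + 4 * (c / 8 % 2) + 8 * (c / 16 % 2) +
      16 * (c / 32) := by omega
    have w3 : d / 2 = d / 2 % 2 + 2 * (d / 4 % 2) + 4 * (d / 8) := by omega
    omega
  have j3 : ui b c d e = ox (b / 2 % 2) (b / 4 % 2) (c / 2 % 2) (c / 4 % 2) (c / 8 % 2)
      (c / 16 % 2) (d % 2) (d / 2 % 2) (d / 4 % 2) (d / 8) (e % 2) (e / 2) := by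
    unfold ui ox
    have w1 : b / 2 % 4 = b / 2 % 2 + 2 * (b / 4 % 2) := by omega
    have w2 : c / 2 % 16 = c / 2 % 2 + 2 * (c / 4 % 2) + 4 * (c / 8 % 2) +
      8 * (c / 16 % 2) := by omega
    have w3 : d = d % 2 + 2 * (d / 2 % 2) + 4 * (d / 4 % 2) + 8 * (d / 8) := by omega
    have w4 : e = e % 2 + 2 * (e / 2) := by omega
    omega
  have j4 : vi a b c d = ox (a % 2) (a / 2) (b % 2) (b / 2 % 2) (b / 4 % 2) (b / 8)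
      (c / 2 % 2) (c / 4 % 2) (c / 8 % 2) (c / 16 % 2) (d / 2 % 2) (d / 4 % 2) := by
    unfold vi ox
    have w1 : a = a % 2 + 2 * (a / 2) := by omega
    have w2 : c / 2 % 16 = c / 2 % 2 + 2 * (c / 4 % 2) + 4 * (c / 8 % 2) +
      8 * (c / 16 % 2) := by omega
    have w3 : b = b % 2 + 2 * (b / 2 % 2) + 4 * (b / 4 % 2) + 8 * (b / 8) := by omega
    have w4 : d / 2 % 4 = d / 2 % 2 + 2 * (d / 4 % 2) := by omega
    omega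
  rw [j1, j2, j3, j4]
  rw [get_st1 _ _ (dx_lt (z _) (z _) (z _) (z _) (z _) (z _) (z _) (z _) (z _) (z _) (z _)
      (z _) (z _)),
    get_st2 _ _ (dx_lt za (z _) (z _) zb (z _) (z _) (z _) (z _) zc (z _) (z _) zd ze),
    get_st3 _ _ (ox_lt (z _) (z _) (z _) (z _) (z _) (z _) (z _) (z _) (z _) zd (z _) ze),
    get_st4 _ _ (ox_lt (z _) za (z _) (z _) (z _) zb (z _) (z _) (z _) (z _) (z _) (z _)),
    P1_dx (z _) (z _) (z _) (z _) (z _) (z _) (z _) (z _) (z _) (z _) (z _) (z _) (z _),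
    P2_dx za (z _) (z _) zb (z _) (z _) (z _) (z _) zc (z _) (z _) zd ze,
    P3_ox (z _) (z _) (z _) (z _) (z _) (z _) (z _) (z _) (z _) zd (z _) ze,
    P4_ox (z _) za (z _) (z _) (z _) zb (z _) (z _) (z _) (z _) (z _) (z _)]
  have y1 := z (b / 2)
  have y2 := z (b / 4)
  have y3 := z (c / 2)
  have y4 := z (c / 4)
  have y5 := z (c / 8)
  have y6 := z (c / 16)
  have y7 := z (d / 2)
  have y8 := z (d / 4)
  have hi : b / 2 % 2 + 2 * (b / 4 % 2) + 4 * (c / 2 % 2) + 8 * (c / 4 % 2) +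
    16 * (c / 8 % 2) + 32 * (c / 16 % 2) + 64 * (d / 2 % 2) + 128 * (d / 4 % 2) < 256 := by
    omega
  exact ws5_spec h ho b₁ b₂ b₃ b₄ (z a) za (z b) zb (z c) zc (z d) zd (z e) ze hi

/-! ### the identities -/

theorem om5_spec {M₁ M₂ o : ℕ} (h : om5 M₁ M₂ o = true) :
    cmO 22 (st3 M₁) (st4 M₂) o = true := by
  unfold cmO
  apply all2_of; intro x0 h0
  apply all2_of; intro x1 h1
  apply all2_of; intro x2 h2
  apply all2_of; intro x3 h3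
  apply all2_of; intro x4 h4
  apply all2_of; intro x5 h5
  apply all2_of; intro x6 h6
  apply all2_of; intro x7 h7
  apply all2_of; intro x8 h8
  apply all2_of; intro x9 h9
  apply all2_of; intro x10 h10
  apply all2_of; intro x11 h11
  unfold cmo1
  have k := al2_spec (al2_spec (al2_spec (al2_spec (al2_spec (al2_spec (al2_spec (al2_spec h
    h0) h1) h2) h5) h6) h9) h10) h11
  have k2 := Nat.eq_of_beq_eq_true (bt5_spec (bt5_spec (bt5_spec (bt5_spec k h3) h4) h7) h8)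
  rw [get_st3 _ _ (ox_lt h0 h1 h2 h3 h4 h5 h6 h7 h8 h9 h10 h11),
    get_st4 _ _ (ox_lt h0 h1 h2 h3 h4 h5 h6 h7 h8 h9 h10 h11),
    get_st3 _ _ (ox_lt h2 h6 h0 h3 h7 h10 h1 h4 h8 h11 h5 h9),
    get_st4 _ _ (ox_lt h2 h6 h0 h3 h7 h10 h1 h4 h8 h11 h5 h9),
    P3_ox h0 h1 h2 h3 h4 h5 h6 h7 h8 h9 h10 h11,
    P4_ox h0 h1 h2 h3 h4 h5 h6 h7 h8 h9 h10 h11,
    P3_ox h2 h6 h0 h3 h7 h10 h1 h4 h8 h11 h5 h9,
    P4_ox h2 h6 h0 h3 h7 h10 h1 h4 h8 h11 h5 h9]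
  have q1 := fd5_pt5 M₁ (x6 + 2 * (x9 + 2 * (x10 + 2 * x11)))
    (x0 + 2 * x1 + (4 * x2 + 32 * x5)) (8 * (x3 + 2 * x4 + 8 * x7 + 16 * x8))
    (8 * (0 + 22 * x3 + 44 * x4 + 176 * x7 + 352 * x8)) (by ring) (by omega)
  have q2 := fd5_pt5 M₂ (x0 + 2 * (x1 + 2 * (x2 + 2 * x5)))
    (4 * (x6 + 8 * (x9 + (2 * x10 + 4 * x11)))) (x3 + 2 * x4 + 8 * x7 + 16 * x8)
    (0 + 22 * x3 + 44 * x4 + 176 * x7 + 352 * x8) (by ring) (by omega)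
  have q3 := fd5_pt5 M₁ (x1 + 2 * (x11 + 2 * (x5 + 2 * x9)))
    (x2 + 2 * x6 + (4 * x0 + 32 * x10)) (8 * (x3 + 2 * x7 + 8 * x4 + 16 * x8))
    (8 * (0 + 22 * x3 + 176 * x4 + 44 * x7 + 352 * x8)) (by ring) (by omega)
  have q4 := fd5_pt5 M₂ (x2 + 2 * (x6 + 2 * (x0 + 2 * x10)))
    (4 * (x1 + 8 * (x11 + (2 * x5 + 4 * x9)))) (x3 + 2 * x7 + 8 * x4 + 16 * x8)
    (0 + 22 * x3 + 176 * x4 + 44 * x7 + 352 * x8) (by ring) (by omega)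
  change fd5 (pt5 M₁ (x6 + 2 * (x9 + 2 * (x10 + 2 * x11))) (x0 + 2 * x1 + (4 * x2 + 32 * x5)))
      (8 * (0 + 22 * x3 + 44 * x4 + 176 * x7 + 352 * x8)) +
    fd5 (pt5 M₂ (x0 + 2 * (x1 + 2 * (x2 + 2 * x5))) (4 * (x6 + 8 * (x9 + (2 * x10 + 4 * x11)))))
      (0 + 22 * x3 + 44 * x4 + 176 * x7 + 352 * x8) +
    (fd5 (pt5 M₁ (x1 + 2 * (x11 + 2 * (x5 + 2 * x9))) (x2 + 2 * x6 + (4 * x0 + 32 * x10)))
      (8 * (0 + 22 * x3 + 176 * x4 + 44 * x7 + 352 * x8)) +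
    fd5 (pt5 M₂ (x2 + 2 * (x6 + 2 * (x0 + 2 * x10)))
      (4 * (x1 + 8 * (x11 + (2 * x5 + 4 * x9)))))
      (0 + 22 * x3 + 176 * x4 + 44 * x7 + 352 * x8)) = 4 * o at k2
  rw [q1, q2, q3, q4, ← Nat.add_assoc] at k2
  have r1 : x0 + 2 * x1 + (4 * x2 + 32 * x5) + 8 * (x3 + 2 * x4 + 8 * x7 + 16 * x8) +
      256 * (x6 + 2 * (x9 + 2 * (x10 + 2 * x11))) =
    x0 + 2 * x1 + 4 * x2 + 8 * x3 + 16 * x4 + 32 * x5 + 64 * x7 + 128 * x8 +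
      256 * (x6 + 2 * x9 + 4 * x10 + 8 * x11) := by ring
  have r2 : 4 * (x6 + 8 * (x9 + (2 * x10 + 4 * x11))) + (x3 + 2 * x4 + 8 * x7 + 16 * x8) +
      256 * (x0 + 2 * (x1 + 2 * (x2 + 2 * x5))) =
    x3 + 2 * x4 + 4 * x6 + 8 * x7 + 16 * x8 + 32 * x9 + 64 * x10 + 128 * x11 +
      256 * (x0 + 2 * x1 + 4 * x2 + 8 * x5) := by ring
  have r3 : x2 + 2 * x6 + (4 * x0 + 32 * x10) + 8 * (x3 + 2 * x7 + 8 * x4 + 16 * x8) +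
      256 * (x1 + 2 * (x11 + 2 * (x5 + 2 * x9))) =
    x2 + 2 * x6 + 4 * x0 + 8 * x3 + 16 * x7 + 32 * x10 + 64 * x4 + 128 * x8 +
      256 * (x1 + 2 * x11 + 4 * x5 + 8 * x9) := by ring
  have r4 : 4 * (x1 + 8 * (x11 + (2 * x5 + 4 * x9))) + (x3 + 2 * x7 + 8 * x4 + 16 * x8) +
      256 * (x2 + 2 * (x6 + 2 * (x0 + 2 * x10))) =
    x3 + 2 * x7 + 4 * x1 + 8 * x4 + 16 * x8 + 32 * x11 + 64 * x5 + 128 * x9 +
      256 * (x2 + 2 * x6 + 4 * x0 + 8 * x10) := by ring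
  rw [r1, r2, r3, r4] at k2
  rw [k2]
  exact Nat.beq_refl _

end Pool.Agent.H43.TC
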