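import Pool.Agent.H43.TC.Chk7

/-!
# From packed certificates to certificates, end (MP_183c3b_co)
-/

set_option autoImplicit false

namespace Pool.Agent.H43.TC

theorem sel_le (y s c : ℕ) (hs : s ≤ c) : (1 - y) * s ≤ c := by
  rcases Nat.eq_zero_or_pos y with h | h
  · subst h
    simpa using hs
  · rw [show 1 - y = 0 by omega]
    simp

theorem fin5 {F D q p o n m : ℕ} (hm : m ≤ 16)
    (h : F + D * p * m ^ 2 = 4 * o + D * (256 * p) + D * q * n ^ 2) :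
    F = 4 * o + D * (q * n ^ 2 + p * (256 - m ^ 2)) := by
  have m2 : m ^ 2 ≤ 256 := by nlinarith
  obtain ⟨r, hr⟩ : ∃ r, 256 = m ^ 2 + r := ⟨256 - m ^ 2, by omega⟩
  have e9 : 256 - m ^ 2 = r := by omega
  rw [e9]
  have e8 : 4 * o + D * (256 * p) + D * q * n ^ 2 =
      (4 * o + D * (q * n ^ 2 + p * r)) + D * p * m ^ 2 := by
    rw [hr]
    ring
  rw [e8] at h
  exact Nat.add_right_cancel h

theorem dm5_spec {G₁ G₂ κ o D p q : ℕ} (h : dm5 G₁ G₂ κ o D p q = true) :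
    cmD 22 (st1 G₁) (st2 G₂) κ o D p q = true := by
  unfold cmD
  apply all2_of; intro x0 h0
  apply all2_of; intro x1 h1
  apply all2_of; intro x2 h2
  apply all2_of; intro x3 h3
  apply all2_of; intro x4 h4
  apply all2_of; intro x5 h5
  apply all2_of; intro x6 h6
  apply all2_of; intro x7 h7
  apply all2_of; intro x8 h8
  apply all2_of; intro x9 h9
  apply all2_of; intro x10 h10
  apply all2_of; intro x11 h11
  apply all2_of; intro x12 h12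
  unfold cmd1
  have k := al2_spec (al2_spec (al2_spec (al2_spec (al2_spec (al2_spec (al2_spec (al2_spec h
    h0) h1) h3) h4) h8) h9) h11) h12
  have k2 := in5_spec k h2 h5 h6 h7 h10
  change fd5 (pt5 G₁ (x0 + 2 * (x1 + 2 * (x4 + 2 * (x9 + 2 * x12))))
      (2 * x3 + (32 * x8 + 128 * x11)))
      (22 * (x2 + 4 * x5 + 8 * x6 + 16 * x7 + 64 * x10)) +
    fd5 (pt5 G₂ (x0 + 2 * (x3 + 2 * (x8 + 2 * (x11 + 2 * x12)))) (x1 + (4 * x4 + 64 * x9)))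
      (22 * (2 * x2 + 8 * x5 + 16 * x6 + 32 * x7 + 128 * x10)) +
    fd5 (pt5 G₁ (x4 + 2 * (x1 + 2 * (x0 + 2 * (x3 + 2 * x8))))
      (2 * x9 + (32 * x12 + 128 * x11)))
      (22 * (x5 + 4 * x2 + 8 * x6 + 16 * x10 + 64 * x7)) +
    fd5 (pt5 G₂ (x4 + 2 * (x9 + 2 * (x12 + 2 * (x11 + 2 * x8)))) (x1 + (4 * x0 + 64 * x3)))
      (22 * (2 * x5 + 8 * x2 + 16 * x6 + 32 * x10 + 128 * x7)) + κ * x6 +
    D * p * ((1 - x6) * ((1 - x2) * (4 - (x0 + x1 + x3)) + (1 - x5) * (4 - (x1 + x9 + x4)) +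
      (1 - x7) * (4 - (x3 + x11 + x8)) + (1 - x10) * (4 - (x9 + x11 + x12)))) ^ 2 =
    4 * o + D * (256 * p) + D * q * (x6 * (x2 * (x0 + x1 + (x3 + 1)) + x5 * (x1 + x9 + (x4 + 1)) +
      x7 * (x3 + x11 + (x8 + 1)) + x10 * (x9 + x11 + (x12 + 1)))) ^ 2 at k2
  rw [get_st1 _ _ (dx_lt h0 h1 h2 h3 h4 h5 h6 h7 h8 h9 h10 h11 h12),
    get_st2 _ _ (dx_lt h0 h1 h2 h3 h4 h5 h6 h7 h8 h9 h10 h11 h12),
    get_st1 _ _ (dx_lt h4 h1 h5 h9 h0 h2 h6 h10 h12 h3 h7 h11 h8),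
    get_st2 _ _ (dx_lt h4 h1 h5 h9 h0 h2 h6 h10 h12 h3 h7 h11 h8),
    P1_dx h0 h1 h2 h3 h4 h5 h6 h7 h8 h9 h10 h11 h12,
    P2_dx h0 h1 h2 h3 h4 h5 h6 h7 h8 h9 h10 h11 h12,
    P1_dx h4 h1 h5 h9 h0 h2 h6 h10 h12 h3 h7 h11 h8,
    P2_dx h4 h1 h5 h9 h0 h2 h6 h10 h12 h3 h7 h11 h8]
  have q1 := fd5_pt5 G₁ (x0 + 2 * (x1 + 2 * (x4 + 2 * (x9 + 2 * x12))))
    (2 * x3 + (32 * x8 + 128 * x11)) (x2 + 4 * x5 + 8 * x6 + 16 * x7 + 64 * x10)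
    (22 * (x2 + 4 * x5 + 8 * x6 + 16 * x7 + 64 * x10)) rfl (by omega)
  have q2 := fd5_pt5 G₂ (x0 + 2 * (x3 + 2 * (x8 + 2 * (x11 + 2 * x12))))
    (x1 + (4 * x4 + 64 * x9)) (2 * x2 + 8 * x5 + 16 * x6 + 32 * x7 + 128 * x10)
    (22 * (2 * x2 + 8 * x5 + 16 * x6 + 32 * x7 + 128 * x10)) rfl (by omega)
  have q3 := fd5_pt5 G₁ (x4 + 2 * (x1 + 2 * (x0 + 2 * (x3 + 2 * x8))))
    (2 * x9 + (32 * x12 + 128 * x11)) (x5 + 4 * x2 + 8 * x6 + 16 * x10 + 64 * x7)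
    (22 * (x5 + 4 * x2 + 8 * x6 + 16 * x10 + 64 * x7)) rfl (by omega)
  have q4 := fd5_pt5 G₂ (x4 + 2 * (x9 + 2 * (x12 + 2 * (x11 + 2 * x8))))
    (x1 + (4 * x0 + 64 * x3)) (2 * x5 + 8 * x2 + 16 * x6 + 32 * x10 + 128 * x7)
    (22 * (2 * x5 + 8 * x2 + 16 * x6 + 32 * x10 + 128 * x7)) rfl (by omega)
  rw [q1, q2, q3, q4] at k2
  have r1 : 2 * x3 + (32 * x8 + 128 * x11) + (x2 + 4 * x5 + 8 * x6 + 16 * x7 + 64 * x10) +
      256 * (x0 + 2 * (x1 + 2 * (x4 + 2 * (x9 + 2 * x12)))) =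
    x2 + 2 * x3 + 4 * x5 + 8 * x6 + 16 * x7 + 32 * x8 + 64 * x10 + 128 * x11 +
      256 * (x0 + 2 * x1 + 4 * x4 + 8 * x9 + 16 * x12) := by ring
  have r2 : x1 + (4 * x4 + 64 * x9) + (2 * x2 + 8 * x5 + 16 * x6 + 32 * x7 + 128 * x10) +
      256 * (x0 + 2 * (x3 + 2 * (x8 + 2 * (x11 + 2 * x12)))) =
    x1 + 2 * x2 + 4 * x4 + 8 * x5 + 16 * x6 + 32 * x7 + 64 * x9 + 128 * x10 +
      256 * (x0 + 2 * x3 + 4 * x8 + 8 * x11 + 16 * x12) := by ring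
  have r3 : 2 * x9 + (32 * x12 + 128 * x11) + (x5 + 4 * x2 + 8 * x6 + 16 * x10 + 64 * x7) +
      256 * (x4 + 2 * (x1 + 2 * (x0 + 2 * (x3 + 2 * x8)))) =
    x5 + 2 * x9 + 4 * x2 + 8 * x6 + 16 * x10 + 32 * x12 + 64 * x7 + 128 * x11 +
      256 * (x4 + 2 * x1 + 4 * x0 + 8 * x3 + 16 * x8) := by ring
  have r4 : x1 + (4 * x0 + 64 * x3) + (2 * x5 + 8 * x2 + 16 * x6 + 32 * x10 + 128 * x7) +
      256 * (x4 + 2 * (x9 + 2 * (x12 + 2 * (x11 + 2 * x8)))) =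
    x1 + 2 * x5 + 4 * x0 + 8 * x2 + 16 * x6 + 32 * x10 + 64 * x3 + 128 * x7 +
      256 * (x4 + 2 * x9 + 4 * x12 + 8 * x11 + 16 * x8) := by ring
  rw [r1, r2, r3, r4] at k2
  have s1 : eB4 x0 x1 x2 x3 x4 x5 x6 x7 x8 x9 x10 x11 x12 =
      (x6 * (x2 * (x0 + x1 + (x3 + 1)) + x5 * (x1 + x9 + (x4 + 1)) +
      x7 * (x3 + x11 + (x8 + 1)) + x10 * (x9 + x11 + (x12 + 1)))) ^ 2 := by
    unfold eB4 nb
    interval_cases x6
    · simp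
    · ring
  have s2 : eR4 x0 x1 x2 x3 x4 x5 x6 x7 x8 x9 x10 x11 x12 =
      ((1 - x6) * ((1 - x2) * (4 - (x0 + x1 + x3)) + (1 - x5) * (4 - (x1 + x9 + x4)) +
      (1 - x7) * (4 - (x3 + x11 + x8)) + (1 - x10) * (4 - (x9 + x11 + x12)))) ^ 2 := by
    unfold eR4 nb
    interval_cases x6
    · have t1 : (1 - x0) + (1 - x1) + (1 - x3) + (1 - 0) = 4 - (x0 + x1 + x3) := by omega
      have t2 : (1 - x1) + (1 - x9) + (1 - x4) + (1 - 0) = 4 - (x1 + x9 + x4) := by omega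
      have t3 : (1 - x3) + (1 - x11) + (1 - x8) + (1 - 0) = 4 - (x3 + x11 + x8) := by omega
      have t4 : (1 - x9) + (1 - x11) + (1 - x12) + (1 - 0) = 4 - (x9 + x11 + x12) := by omega
      rw [t1, t2, t3, t4]
    · simp
  rw [s1, s2]
  have t0 : (1 - x6) * ((1 - x2) * (4 - (x0 + x1 + x3)) + (1 - x5) * (4 - (x1 + x9 + x4)) +
      (1 - x7) * (4 - (x3 + x11 + x8)) + (1 - x10) * (4 - (x9 + x11 + x12))) ≤ 16 := by
    apply sel_le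
    have u1 := sel_le x2 (4 - (x0 + x1 + x3)) 4 (by omega)
    have u2 := sel_le x5 (4 - (x1 + x9 + x4)) 4 (by omega)
    have u3 := sel_le x7 (4 - (x3 + x11 + x8)) 4 (by omega)
    have u4 := sel_le x10 (4 - (x9 + x11 + x12)) 4 (by omega)
    omega
  generalize (1 - x6) * ((1 - x2) * (4 - (x0 + x1 + x3)) + (1 - x5) * (4 - (x1 + x9 + x4)) +
      (1 - x7) * (4 - (x3 + x11 + x8)) + (1 - x10) * (4 - (x9 + x11 + x12))) = m at k2 t0 ⊢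
  generalize x6 * (x2 * (x0 + x1 + (x3 + 1)) + x5 * (x1 + x9 + (x4 + 1)) +
      x7 * (x3 + x11 + (x8 + 1)) + x10 * (x9 + x11 + (x12 + 1))) = n at k2 ⊢
  have k3 := fin5 t0 k2
  rw [k3]
  exact Nat.beq_refl _

/-- packed certificates are certificates -/
theorem cert_of {G₁ G₂ M₁ M₂ κ oG oM o D p q : ℕ}
    (h : ckP G₁ G₂ M₁ M₂ κ oG oM o D p q = true) :
    Cert4 22 (st1 G₁) (st2 G₂) 22 (st3 M₁) (st4 M₂) κ oG oM o D p q := by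
  unfold ckP at h
  simp only [an_iff] at h
  obtain ⟨⟨b1, b2, b3, b4⟩, ⟨e, ho⟩, hw, hm, hd⟩ := h
  have ho' : o ≤ 2097152 := Nat.le_of_ble_eq_true ho
  have s (e : ℕ) (he : e < 4) := slab5 hw ho' (fun i hi => bd5_spec b1 hi)
    (fun i hi => bd5_spec b2 hi) (fun i hi => bd5_spec b3 hi) (fun i hi => bd5_spec b4 hi) he
  exact ⟨dm5_spec hd, om5_spec hm, Nat.eq_of_beq_eq_true e, s 0 (by norm_num),
    s 1 (by norm_num), s 2 (by norm_num), s 3 (by norm_num)⟩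

end Pool.Agent.H43.TC
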