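import Mathlib

/-!
# Staying probabilities of walks in two-coloured tori (MP_183c3b_co)
-/

set_option autoImplicit false

namespace Pool.Agent.H43.TC

open Filter Topology

/-- `walks s c b t x`: the number of walks `x = X₀, X₁, …, X_t` with steps `± s i` all of whose
points have colour `b` under the colouring `c`. -/
def walks {G : Type} [AddCommGroup G] {k : ℕ} (s : Fin k → G) (c : G → Bool) (b : Bool) :
    ℕ → G → ℕ
  | 0, x => if c x = b then 1 else 0
  | t + 1, x =>
    if c x = b then ∑ i : Fin k, (walks s c b t (x + s i) + walks s c b t (x - s i)) else 0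

/-- the vertices of the torus `T_n^k` -/
abbrev Tor (k n : ℕ) : Type := Fin k → ZMod n

/-- the unit vectors -/
def e {k n : ℕ} (i : Fin k) : Tor k n := Pi.single i 1

section

variable {k n : ℕ} [NeZero n]

/-- the number of vertices of colour `b` (`true` = red, `false` = blue) -/
def size (c : Tor k n → Bool) (b : Bool) : ℕ := (Finset.univ.filter (fun x => c x = b)).card

/-- the number of `t`-step walks in the torus all of whose points have colour `b` -/
def total (c : Tor k n → Bool) (b : Bool) (t : ℕ) : ℕ := ∑ x, walks e c b t x

/-- the probability that a `t`-step random walk from a uniform vertex of colour `b` stays in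
colour `b` -/
noncomputable def stay (c : Tor k n → Bool) (b : Bool) (t : ℕ) : ℝ :=
  (total c b t : ℝ) / ((size c b : ℝ) * (2 * k : ℝ) ^ t)

/-- balanced colourings -/
def Balanced (c : Tor k n → Bool) : Prop := size c true = size c false

/-- density of colour `b` -/
noncomputable def dens (c : Tor k n → Bool) (b : Bool) : ℝ := (size c b : ℝ) / (n : ℝ) ^ k

/-- probability that a `t`-step walk from a uniform vertex has all its points of colour `b` -/
noncomputable def mono (c : Tor k n → Bool) (b : Bool) (t : ℕ) : ℝ :=
  (total c b t : ℝ) / ((n : ℝ) ^ k * (2 * k : ℝ) ^ t)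

end

/-- The achievable region: limits of `(p_R, p_B)` for balanced colourings of the tori
`T_{n_j}^k` with `n_j + 3 ≥ 3` tending to infinity. -/
def region (k t : ℕ) : Set (ℝ × ℝ) :=
  {p | ∃ (n : ℕ → ℕ) (c : ∀ j, Tor k (n j + 3) → Bool), Tendsto n atTop atTop ∧
    (∀ j, Balanced (c j)) ∧
    Tendsto (fun j => (stay (c j) true t, stay (c j) false t)) atTop (𝓝 p)}

/-- reduction of the torus of side `n * M` onto the torus of side `n` -/
def red {k : ℕ} (n M : ℕ) : Tor k (n * M) →+ Tor k n where
  toFun x i := ZMod.castHom (Dvd.intro M rfl) (ZMod n) (x i)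
  map_zero' := by funext i; simp
  map_add' x y := by funext i; simp

/-- the linear map with coefficients `a` -/
def lin {k m : ℕ} (a : Fin k → ZMod m) : Tor k m →+ ZMod m where
  toFun x := ∑ i, a i * x i
  map_zero' := by simp
  map_add' x y := by simp [mul_add, Finset.sum_add_distrib]

/-- profile of colourings: red density exactly `ρ`, monochromatic walk densities near `R`, `B`,
on arbitrarily large tori -/
def Near (k t : ℕ) (ρ R B : ℝ) : Prop :=
  ∀ ε : ℝ, 0 < ε → ∀ n₀ : ℕ, ∃ (n : ℕ) (c : Tor k (n + 3) → Bool), n₀ ≤ n ∧
    dens c true = ρ ∧ |mono c true t - R| < ε ∧ |mono c false t - B| < ε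

end Pool.Agent.H43.TC
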