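import Pool.Agent.H43.TC.Defs

/-!
# Further definitions for two-coloured tori (MP_183c3b_co)
-/

set_option autoImplicit false

namespace Pool.Agent.H43.TC

open Finset

/-- the number of `t`-step walks in the path with the `m` vertices `0, …, m - 1` -/
def pathWalks (m t : ℕ) : ℕ :=
  ∑ z ∈ Finset.range m,
    walks (fun _ : Fin 1 => (1 : ℤ)) (fun z => decide (0 ≤ z ∧ z < m)) true t (z : ℤ)

/-- the unit vectors of `ℤ^k` -/
def un {k : ℕ} (i : Fin k) : Fin k → ℤ := Pi.single i 1

/-- the colouring of `ℤ^k` by `z ≠ 0` -/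
def off (k : ℕ) (z : Fin k → ℤ) : Bool := decide (z ≠ 0)

/-- the number of `s`-step walks from `0` in `ℤ^k` that do not return to `0` -/
def avoid (k : ℕ) : ℕ → ℕ
  | 0 => 1
  | s + 1 => ∑ i : Fin k, (walks un (off k) true s (un i) + walks un (off k) true s (-un i))

/-- the sum over `s = 0, …, t` of the probability that the simple random walk on `ℤ^k` does not
return to its starting point within `s` steps -/
noncomputable def rng (k t : ℕ) : ℝ :=
  ∑ s ∈ Finset.range (t + 1), (avoid k s : ℝ) / (2 * k : ℝ) ^ s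

/-- the `ℓ¹` norm -/
def nrm {k : ℕ} (z : Fin k → ℤ) : ℤ := ∑ i, |z i|

/-- reduction of `ℤ^k` to the torus -/
def pr {k n : ℕ} : (Fin k → ℤ) →+ Tor k n where
  toFun z i := (z i : ZMod n)
  map_zero' := by funext i; simp
  map_add' x y := by funext i; simp

end Pool.Agent.H43.TC
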