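import Pool.Agent.H43.TC.Targets2

/-! A lattice of index `(t + 1) ^ k` with minimal norm above `t` (MP_183c3b_co). -/

set_option autoImplicit false

namespace Pool.Agent.H43.TC

/-- general lattice -/
def T_LGN : Prop := ∀ k t : ℕ, 0 < k → ∃ a : Fin k → ZMod ((t + 1) ^ k),
  Function.Surjective (lin a) ∧
    ∀ z : Fin k → ℤ, z ≠ 0 → nrm z ≤ t → ∑ i, a i * (z i : ZMod ((t + 1) ^ k)) ≠ 0

theorem lgn : T_LGN := by
  intro k t hk
  refine ⟨fun i => ((t + 1 : ℕ) : ZMod ((t + 1) ^ k)) ^ (i : ℕ), ?_, ?_⟩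
  · intro u
    refine ⟨Pi.single ⟨0, hk⟩ u, ?_⟩
    change ∑ i : Fin k, ((t + 1 : ℕ) : ZMod ((t + 1) ^ k)) ^ (i : ℕ) *
      (Pi.single (⟨0, hk⟩ : Fin k) u : Tor k ((t + 1) ^ k)) i = u
    rw [Finset.sum_eq_single (⟨0, hk⟩ : Fin k)]
    · simp
    · intro b _ hb
      simp [Pi.single_eq_of_ne hb]
    · intro h
      exact absurd (Finset.mem_univ _) h
  · intro z hz hn h
    have h1 : ((∑ i : Fin k, ((t : ℤ) + 1) ^ (i : ℕ) * z i : ℤ) : ZMod ((t + 1) ^ k)) = 0 := by
      push_cast
      have h2 := h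
      push_cast at h2
      exact h2
    rw [ZMod.intCast_zmod_eq_zero_iff_dvd] at h1
    push_cast at h1
    -- all `z i` vanish
    have hab : ∀ i, |z i| ≤ t := fun i =>
      (Finset.single_le_sum (f := fun i => |z i|) (fun j _ => abs_nonneg _)
        (Finset.mem_univ i)).trans hn
    have key : ∀ n : ℕ, ∀ i : Fin k, (i : ℕ) < n → z i = 0 := by
      intro n
      induction n with
      | zero => intro i hi; omega
      | succ n ih =>
        intro i hi
        by_cases hin : (i : ℕ) < n
        · exact ih i hin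
        · have hi' : (i : ℕ) = n := by omega
          -- the sum is `(t+1)^n * (z i + (t+1) * r)`
          have h3 : ((t : ℤ) + 1) ^ (n + 1) ∣ ∑ j : Fin k, ((t : ℤ) + 1) ^ (j : ℕ) * z j :=
            (pow_dvd_pow _ (by have := i.2; omega)).trans h1
          have h4 : ∑ j : Fin k, ((t : ℤ) + 1) ^ (j : ℕ) * z j =
              ((t : ℤ) + 1) ^ n * z i +
                ∑ j ∈ Finset.univ.erase i, ((t : ℤ) + 1) ^ (j : ℕ) * z j := by
            rw [← Finset.add_sum_erase _ _ (Finset.mem_univ i), hi']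
          have h5 : ((t : ℤ) + 1) ^ (n + 1) ∣
              ∑ j ∈ Finset.univ.erase i, ((t : ℤ) + 1) ^ (j : ℕ) * z j := by
            refine Finset.dvd_sum fun j hj => ?_
            have hji : j ≠ i := (Finset.mem_erase.1 hj).1
            have hji' : (j : ℕ) ≠ i := fun e => hji (Fin.ext e)
            by_cases hjn : (j : ℕ) < n
            · rw [ih j hjn, mul_zero]
              exact dvd_zero _
            · exact (pow_dvd_pow _ (by omega)).mul_right _
          rw [h4] at h3
          have h6 : ((t : ℤ) + 1) ^ (n + 1) ∣ ((t : ℤ) + 1) ^ n * z i :=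
            (dvd_add_left h5).1 h3
          rw [pow_succ] at h6
          have h7 : ((t : ℤ) + 1) ∣ z i :=
            (mul_dvd_mul_iff_left (pow_ne_zero n (by positivity))).1 h6
          exact Int.eq_zero_of_abs_lt_dvd h7 (by have := hab i; omega)
    exact hz (funext fun i => key k i i.2)

end Pool.Agent.H43.TC
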