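import Pool.Agent.H43.TC.Targets4

/-! The region for `k = 2`, `t = 4` (MP_183c3b_co). -/

set_option autoImplicit false

namespace Pool.Agent.H43.TC

theorem ma4 (hSYM : T_SYM) (hCVX : T_CVX) (hOU4 : T_OU4) (hVX4 : T_VX4) (hPL4 : T_PL4) :
    T_MA4 := by
  apply Set.Subset.antisymm
  · rintro ⟨x, y⟩ h
    have h1 := hOU4 x y h
    have h2 := hOU4 y x (hSYM 2 4 x y h)
    exact hPL4 x y h1.1 h1.2.1 h2.1 h2.2.1 h1.2.2 h2.2.2
  · refine convexHull_min ?_ (hCVX 2 4 (by norm_num))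
    rintro p (hp | ⟨⟨x, y⟩, hp, rfl⟩)
    · exact hVX4 hp
    · exact hSYM 2 4 x y (hVX4 hp)

end Pool.Agent.H43.TC
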