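import Pool.Agent.H43.TC.Targets

/-! The region for `k = 2`, `t = 3` (MP_183c3b_co). -/

set_option autoImplicit false

namespace Pool.Agent.H43.TC

theorem main (hSYM : T_SYM) (hCVX : T_CVX) (hOUT : T_OUT) (hVTX : T_VTX) (hPOL : T_POL) :
    T_MAIN := by
  apply Set.Subset.antisymm
  · rintro ⟨x, y⟩ h
    have h1 := hOUT x y h
    have h2 := hOUT y x (hSYM 2 3 x y h)
    exact hPOL x y h1.1 h1.2.1 h2.1 h2.2.1 h1.2.2 h2.2.2
  · refine convexHull_min ?_ (hCVX 2 3 (by norm_num))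
    rintro p (hp | ⟨⟨x, y⟩, hp, rfl⟩)
    · exact hVTX hp
    · exact hSYM 2 3 x y (hVTX hp)

end Pool.Agent.H43.TC
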