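import Pool.Agent.H43.TC.FIN
import Pool.Agent.H86.TC.BRG
import Pool.Agent.H45.TE.EDG
import Pool.Agent.H17.TE.PLW
import Pool.Agent.H54.TC.DIV

/-!
# Staying probabilities in two-coloured tori: the power law (MP_183c3b_co)
-/

set_option autoImplicit false

namespace Pool.Agent.H43.TC.PowerLaw

open Pool.Agent.H43.TC

/-- The region lies between the curves `y = x ^ t` and `x = y ^ t`, and both curves are attained
at `1 - 1 / m` for every divisor `m` of `2 * k`. -/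
theorem result (k t : ℕ) (hk : 0 < k) (ht : 1 ≤ t) :
    (∀ p ∈ region k t, p.1 ^ t ≤ p.2 ∧ p.2 ^ t ≤ p.1) ∧
    ∀ m : ℕ, m ∣ 2 * k →
      ((1 - 1 / m : ℝ), ((1 - 1 / m) ^ t : ℝ)) ∈ region k t ∧
      (((1 - 1 / m) ^ t : ℝ), (1 - 1 / m : ℝ)) ∈ region k t := by
  have hP : T_PLW := Pool.Agent.H17.TE.plw Pool.Agent.H86.TC.brg Pool.Agent.H45.TE.edg
  refine ⟨fun p hp => ⟨hP k t p.1 p.2 hk ht hp, hP k t p.2 p.1 hk ht (sym' k t p.1 p.2 hp)⟩,
    fun m hm => ?_⟩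
  have h := Pool.Agent.H54.TC.div2 k t m hk ht hm
  exact ⟨h, sym' k t _ _ h⟩

end Pool.Agent.H43.TC.PowerLaw
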