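import Pool.Agent.H43.TC.Targets2
import Pool.Agent.H43.TC.Chk4

/-!
# Targets for four steps in the plane (MP_183c3b_co)
-/

set_option autoImplicit false

namespace Pool.Agent.H43.TC

open Filter Topology

/-- walks of length `i + j` by the vertex reached after `i` steps -/
def T_CNV : Prop := ∀ (G : Type) [AddCommGroup G] [Fintype G] (k : ℕ) (s : Fin k → G)
  (c : G → Bool) (b : Bool) (i j : ℕ),
    ∑ x, walks s c b (i + j) x = ∑ x, walks s c b i x * walks s c b j x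

/-- the inequality of slope `p / q` for four steps -/
def Ineq4 (p q N : ℕ) : Prop := ∀ (n : ℕ) [NeZero n] (c : Tor 2 n → Bool),
  N * size c false + p * total c true 4 ≤ q * total c false 4 + 256 * p * n ^ 2

/-- from a certificate to the inequality for all colourings -/
def T_WN4 : Prop := ∀ (w g₁ g₂ v m₁ m₂ κ oG oM o D p q : ℕ),
  Cert4 w g₁ g₂ v m₁ m₂ κ oG oM o D p q → ∀ (n : ℕ) [NeZero n] (c : Tor 2 n → Bool),
    κ * size c false + D * p * total c true 4 ≤ D * (q * total c false 4 + 256 * p * n ^ 2)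

def T_CE4 : Prop := Ineq4 6 65 3072 ∧ Ineq4 73 637 36808 ∧ Ineq4 19 127 9328 ∧
  Ineq4 13 16 5248 ∧ Ineq4 67 64 26368 ∧ Ineq4 79 64 30464 ∧ Ineq4 139 64 49664 ∧
  Ineq4 77 32 27136 ∧ Ineq4 91 32 31232 ∧ Ineq4 755 256 257536 ∧ Ineq4 197 64 66688

/-- the twelve inequalities for the lower boundary -/
def Low4 (x y : ℝ) : Prop :=
  6 * x ≤ 65 * y ∧ 73 * x - 71 / 32 ≤ 637 * y ∧ 19 * x - 25 / 16 ≤ 127 * y ∧
  13 * x - 11 / 2 ≤ 16 * y ∧ 67 * x - 31 ≤ 64 * y ∧ 79 * x - 39 ≤ 64 * y ∧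
  139 * x - 84 ≤ 64 * y ∧ 77 * x - 48 ≤ 32 * y ∧ 91 * x - 60 ≤ 32 * y ∧
  755 * x - 504 ≤ 256 * y ∧ 197 * x - 267 / 2 ≤ 64 * y ∧ 203 * x - 139 ≤ 64 * y

def T_OU4 : Prop := ∀ x y : ℝ, (x, y) ∈ region 2 4 → 0 ≤ x ∧ x ≤ 1 ∧ Low4 x y

/-- the vertices of the lower boundary -/
def verts4 : Set (ℝ × ℝ) :=
  {(0, 0), (5 / 32, 3 / 208), (129 / 512, 13 / 512), (1 / 2, 1 / 16), (3 / 5, 23 / 160),
    (2 / 3, 41 / 192), (3 / 4, 81 / 256), (4 / 5, 17 / 40), (6 / 7, 9 / 16), (8 / 9, 47 / 72),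
    (10 / 11, 1003 / 1408), (11 / 12, 565 / 768), (1, 1)}

def T_VX4 : Prop := verts4 ⊆ region 2 4

def T_PL4 : Prop := ∀ x y : ℝ, 0 ≤ x → x ≤ 1 → 0 ≤ y → y ≤ 1 → Low4 x y → Low4 y x →
  (x, y) ∈ convexHull ℝ (verts4 ∪ Prod.swap '' verts4)

/-- the main theorem for four steps -/
def T_MA4 : Prop := region 2 4 = convexHull ℝ (verts4 ∪ Prod.swap '' verts4)

end Pool.Agent.H43.TC
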